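/-
C1 : the scale at which the level windows fill most but not almost all of the interval.

PROOF.  f c t = (volume (Icc (a - t) (a + t) \ W c)).toReal (finite, ≤ 2 t).  For 0 ≤ t' ≤ t:  f c t' ≤ f c t ≤ f c t' + 2 (t - t')
(Icc (a-t) (a+t) ⊆ Icc (a-t') (a+t') ∪ Icc (a-t) (a-t') ∪ Icc (a+t') (a+t)); so f c is continuous on [0, ∞).
For 0 < t ≤ d: f c t ≥ t (Ioo a (a + t) ⊆ Icc \ W c), so d < T₀ (otherwise f c₀ T₀ ≥ T₀ > T₀/5), and d ∈ S, where
S = {t ∈ [d, T₀] | ∀ c, t / 5 ≤ f c t}: closed, bounded, nonempty, so it has a largest element t (IsCompact.exists_isGreatest or sSup); t ≠ T₀ as f c₀ T₀ < T₀/5.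
For every t' ∈ (t, T₀] there is c with f c t' < t'/5 (G t' c for short).
(near) if t'/2 ≤ t'' ≤ t', G t' c', G t'' c'', t'' > 0, then f c' t'' ≤ f c' t' < t'/5 ≤ 2 t''/5 and f c'' t'' < t''/5: the sum is < 3 t''/5 < 2 t'' = volume of
  the interval, so there is a point of the interval in W c' ∩ W c'' (otherwise Icc ⊆ (Icc \ W c') ∪ (Icc \ W c'')), so |c' - c''| ≤ 1/2 by hW.
(drift) for all j : ℕ, all t' ∈ (t, T₀] with T₀ ≤ 2^j t' and all c with G t' c: t' exp (-c) ≤ 2 T₀ exp (-c₀).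
  j = 0 or T₀ ≤ 2 t': |c - c₀| ≤ 1/2 by (near) for t', T₀: t' exp (-c) ≤ T₀ exp (-c₀) exp (1/2), exp (1/2) ≤ 2.
  j + 1 and 2 t' < T₀: take c' with G (2 t') c'; by induction 2 t' exp (-c') ≤ 2 T₀ exp (-c₀); |c - c'| ≤ 1/2: t' exp (-c) ≤ exp (1/2)/2 * (2 t' exp (-c')) ≤ 2 T₀ exp (-c₀).
Finally take t' ∈ (t, min (2 t) T₀] (e.g. t' = min (2 t) T₀), G t' c: f c t ≤ f c t' < t'/5 ≤ 2 t/5, and t exp (-c) ≤ t' exp (-c) ≤ 2 T₀ exp (-c₀)
(a power j with T₀ ≤ 2^j t' exists).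
-/
import Mathlib

set_option autoImplicit false

namespace Pool.Agent.H46.TT

open Set MeasureTheory

theorem C1_fin (W : ℝ → Set ℝ) (a c t : ℝ) : volume (Icc (a - t) (a + t) \ W c) ≠ ⊤ :=
  ((measure_mono diff_subset).trans_lt measure_Icc_lt_top).ne

theorem C1_mono (W : ℝ → Set ℝ) (a c : ℝ) {t' t : ℝ} (h : t' ≤ t) :
    (volume (Icc (a - t') (a + t') \ W c)).toReal ≤ (volume (Icc (a - t) (a + t) \ W c)).toReal := by
  apply ENNReal.toReal_mono (C1_fin W a c t)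
  apply measure_mono
  intro x hx
  refine ⟨⟨?_, ?_⟩, hx.2⟩
  · have := hx.1.1
    linarith
  · have := hx.1.2
    linarith

theorem C1_low (W : ℝ → Set ℝ) {a d : ℝ}
    (hgap : ∀ c, ∀ t ∈ Ioo a (a + d), t ∉ W c) (c : ℝ) {t : ℝ} (ht : 0 < t) (htd : t ≤ d) :
    t ≤ (volume (Icc (a - t) (a + t) \ W c)).toReal := by
  have h1 : volume (Ioo a (a + t)) ≤ volume (Icc (a - t) (a + t) \ W c) := by
    apply measure_mono
    intro x hx
    refine ⟨⟨?_, ?_⟩, ?_⟩
    · have := hx.1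
      linarith
    · have := hx.2
      linarith
    · apply hgap c x
      exact ⟨hx.1, by have := hx.2; linarith⟩
  have h2 := ENNReal.toReal_mono (C1_fin W a c t) h1
  rw [Real.volume_Ioo, ENNReal.toReal_ofReal (by linarith)] at h2
  linarith

theorem C1_near (W : ℝ → Set ℝ)
    (hW : ∀ c c' y, y ∈ W c → y ∈ W c' → |c - c'| ≤ 1 / 2) {a t' t'' c' c'' : ℝ} (h0 : 0 < t'')
    (h1 : t' / 2 ≤ t'') (h2 : t'' ≤ t')
    (hc' : (volume (Icc (a - t') (a + t') \ W c')).toReal < t' / 5)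
    (hc'' : (volume (Icc (a - t'') (a + t'') \ W c'')).toReal < t'' / 5) :
    |c' - c''| ≤ 1 / 2 := by
  by_contra hcon
  have hsub : Icc (a - t'') (a + t'') ⊆ (Icc (a - t'') (a + t'') \ W c') ∪
      (Icc (a - t'') (a + t'') \ W c'') := by
    intro x hx
    by_cases hx1 : x ∈ W c'
    · right
      refine ⟨hx, fun hx2 => hcon (hW c' c'' x hx1 hx2)⟩
    · left
      exact ⟨hx, hx1⟩
  have h3 : volume (Icc (a - t'') (a + t'')) ≤ volume (Icc (a - t'') (a + t'') \ W c') +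
      volume (Icc (a - t'') (a + t'') \ W c'') :=
    (measure_mono hsub).trans (measure_union_le _ _)
  have h4 := ENNReal.toReal_mono (ENNReal.add_ne_top.2 ⟨C1_fin W a c' t'', C1_fin W a c'' t''⟩) h3
  rw [ENNReal.toReal_add (C1_fin W a c' t'') (C1_fin W a c'' t''), Real.volume_Icc,
    ENNReal.toReal_ofReal (by linarith)] at h4
  have h5 := C1_mono W a c' h2
  linarith

theorem C1_exp : Real.exp (1 / 2) ≤ 2 := by
  have h1 : Real.exp (1 / 2) * Real.exp (1 / 2) = Real.exp 1 := by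
    rw [← Real.exp_add]
    norm_num
  have h2 := Real.exp_one_lt_d9
  have h3 := Real.exp_pos (1 / 2)
  nlinarith

theorem C1_shift {c c' x y : ℝ} (hx : 0 < x) (hxy : x ≤ y) (h : |c' - c| ≤ 1 / 2) :
    x * Real.exp (-c) ≤ 2 * (y * Real.exp (-c')) := by
  have h1 : -c ≤ -c' + 1 / 2 := by
    have := (abs_le.1 h).2
    linarith
  have h2 : Real.exp (-c) ≤ Real.exp (-c') * Real.exp (1 / 2) := by
    rw [← Real.exp_add]
    exact Real.exp_le_exp.2 h1
  have h3 := C1_exp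
  have h4 := Real.exp_pos (-c')
  have h5 : Real.exp (-c) ≤ 2 * Real.exp (-c') := by nlinarith
  have h6 := Real.exp_pos (-c)
  calc x * Real.exp (-c) ≤ y * (2 * Real.exp (-c')) :=
        mul_le_mul hxy h5 h6.le (by linarith)
    _ = 2 * (y * Real.exp (-c')) := by ring

theorem C1_shift' {c c' x : ℝ} (hx : 0 < x) (h : |c' - c| ≤ 1 / 2) :
    x * Real.exp (-c) ≤ 2 * x * Real.exp (-c') := by
  have := C1_shift hx (le_refl x) h
  linarith

theorem exists_scale (W : ℝ → Set ℝ) (hWm : ∀ c, MeasurableSet (W c))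
    (hW : ∀ c c' y, y ∈ W c → y ∈ W c' → |c - c'| ≤ 1 / 2) {a d T₀ c₀ : ℝ} (hd : 0 < d)
    (hgap : ∀ c, ∀ t ∈ Ioo a (a + d), t ∉ W c) (hT : 0 < T₀)
    (hc : volume (Icc (a - T₀) (a + T₀) \ W c₀) < ENNReal.ofReal (T₀ / 5)) :
    ∃ t c : ℝ, d ≤ t ∧ t < T₀ ∧
      (∀ c', ENNReal.ofReal (t / 5) ≤ volume (Icc (a - t) (a + t) \ W c')) ∧
      volume (Icc (a - t) (a + t) \ W c) ≤ ENNReal.ofReal (2 * t / 5) ∧
      t * Real.exp (-c) ≤ 2 * (T₀ * Real.exp (-c₀)) := by
  have hc0 : (volume (Icc (a - T₀) (a + T₀) \ W c₀)).toReal < T₀ / 5 := by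
    have h := (ENNReal.toReal_lt_toReal (C1_fin W a c₀ T₀) ENNReal.ofReal_ne_top).2 hc
    rwa [ENNReal.toReal_ofReal (by linarith)] at h
  have hdT : d ≤ T₀ := by
    by_contra hcon
    push Not at hcon
    have := C1_low W hgap c₀ hT hcon.le
    linarith
  obtain ⟨S, hS⟩ : ∃ S : Set ℝ, S = {t | d ≤ t ∧ t ≤ T₀ ∧
      ∀ c, t / 5 ≤ (volume (Icc (a - t) (a + t) \ W c)).toReal} := ⟨_, rfl⟩
  have hdS : d ∈ S := by
    rw [hS]
    refine ⟨le_refl d, hdT, fun c => ?_⟩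
    have := C1_low W hgap c hd (le_refl d)
    linarith
  have hbdd : BddAbove S := ⟨T₀, fun x hx => by
    rw [hS] at hx
    exact hx.2.1⟩
  obtain ⟨t, ht⟩ : ∃ t, t = sSup S := ⟨_, rfl⟩
  have hdt : d ≤ t := by
    rw [ht]
    exact le_csSup hbdd hdS
  have htT : t ≤ T₀ := by
    rw [ht]
    apply csSup_le ⟨d, hdS⟩
    intro x hx
    rw [hS] at hx
    exact hx.2.1
  have htS : ∀ c, t / 5 ≤ (volume (Icc (a - t) (a + t) \ W c)).toReal := by
    intro c
    apply le_of_forall_pos_le_add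
    intro ε hε
    have h1 : t - ε < sSup S := by
      rw [← ht]
      linarith
    obtain ⟨s, hs, hs1⟩ := exists_lt_of_lt_csSup ⟨d, hdS⟩ h1
    have hst : s ≤ t := by
      rw [ht]
      exact le_csSup hbdd hs
    rw [hS] at hs
    have h2 := hs.2.2 c
    have h3 := C1_mono W a c hst
    linarith
  have htT' : t < T₀ := by
    rcases htT.lt_or_eq with h | h
    · exact h
    · exfalso
      have := htS c₀
      rw [h] at this
      linarith
  have ht0 : 0 < t := lt_of_lt_of_le hd hdt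
  have hex : ∀ t', t < t' → t' ≤ T₀ →
      ∃ c, (volume (Icc (a - t') (a + t') \ W c)).toReal < t' / 5 := by
    intro t' h1 h2
    by_contra hcon
    push Not at hcon
    have h3 : t' ∈ S := by
      rw [hS]
      exact ⟨by linarith, h2, hcon⟩
    have h4 : t' ≤ t := by
      rw [ht]
      exact le_csSup hbdd h3
    linarith
  have hdrift : ∀ j : ℕ, ∀ t' c, t < t' → t' ≤ T₀ → T₀ ≤ 2 ^ j * t' →
      (volume (Icc (a - t') (a + t') \ W c)).toReal < t' / 5 →
      t' * Real.exp (-c) ≤ 2 * (T₀ * Real.exp (-c₀)) := by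
    intro j
    induction j with
    | zero =>
      intro t' c h1 h2 h3 h4
      have hn := C1_near W hW (by linarith) (by linarith) h2 hc0 h4
      exact C1_shift (by linarith) h2 hn
    | succ j ih =>
      intro t' c h1 h2 h3 h4
      rcases le_or_gt T₀ (2 * t') with h5 | h5
      · have hn := C1_near W hW (by linarith) (by linarith) h2 hc0 h4
        exact C1_shift (by linarith) h2 hn
      · obtain ⟨c', hc'⟩ := hex (2 * t') (by linarith) h5.le
        have h6 := ih (2 * t') c' (by linarith) h5.le (by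
          rw [pow_succ] at h3
          linarith) hc'
        have hn := C1_near W hW (by linarith) (by linarith) (by linarith) hc' h4
        have h7 := C1_shift' (x := t') (by linarith) hn
        linarith
  have hm1 : t < min (2 * t) T₀ := lt_min (by linarith) htT'
  obtain ⟨c, hcc⟩ := hex (min (2 * t) T₀) hm1 (min_le_right _ _)
  have hm0 : 0 < min (2 * t) T₀ := lt_trans ht0 hm1
  obtain ⟨j, hj⟩ : ∃ j : ℕ, T₀ / min (2 * t) T₀ < 2 ^ j :=
    pow_unbounded_of_one_lt _ (by norm_num)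
  have hj' : T₀ ≤ 2 ^ j * min (2 * t) T₀ := by
    rw [div_lt_iff₀ hm0] at hj
    exact hj.le
  have hfin := hdrift j _ c hm1 (min_le_right _ _) hj' hcc
  refine ⟨t, c, hdt, htT', ?_, ?_, ?_⟩
  · intro c'
    rw [← ENNReal.ofReal_toReal (C1_fin W a c' t)]
    exact ENNReal.ofReal_le_ofReal (htS c')
  · rw [← ENNReal.ofReal_toReal (C1_fin W a c t)]
    apply ENNReal.ofReal_le_ofReal
    have h1 := C1_mono W a c hm1.le
    have h2 : min (2 * t) T₀ ≤ 2 * t := min_le_left _ _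
    linarith
  · have h1 : t * Real.exp (-c) ≤ min (2 * t) T₀ * Real.exp (-c) :=
      mul_le_mul_of_nonneg_right hm1.le (Real.exp_pos _).le
    linarith

end Pool.Agent.H46.TT
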