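/-
D1 : stopping time and control of the distortion.

PROOF.  len i := w i (a + t) - w i (a - t) > 0.  Since len n ≥ θ, the set of m ≤ n with θ ≤ ∑_{i ≤ m} len i is nonempty; m = the smallest (Nat.find); for all i ≤ m:
∑_{l < i} len l ≤ ∑_{l < m} len l < θ (for m = 0 the sum is 0 < θ).
Control: `ctrl` (EM/Ctr) for the path of length m (Path.mono) on [α, β] = [a - 4 t, a + 4 t] with E = 1/8 and c i = 4 exp (1/8) len i: if Osc (w i) α β (1/8) then
w i β - w i α ≤ 4 exp (1/8) len i by osc_ratio (u, v = α, β; u', v' = a - t, a + t: (w i β - w i α) * (2 t) ≤ exp (1/8) * (len i * (8 t))), and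
M ∑_{l < i} c l ≤ 4 exp (1/8) M θ ≤ 1/8 since exp (1/8) ≤ 8/7 (Real.exp_bound / add_one_le_exp (-1/8)) and 100 M θ ≤ 1.
Last claim: i = 0: w 0 = 1, len 0 = 2 t ≤ 1.  i + 1 ≤ m: w (i+1) = s * w i, s ∈ A.S; s has derivative ≤ exp M everywhere: there is ξ ∈ (u, u + 1) with
s' ξ = s (u+1) - s u = 1 (Good.mvt, Good.2.2), so log s' u ≤ M |u - ξ| ≤ M (LipS; cf. Bld_deriv in EZ/Bld.lean); by Good.mvt len (i+1) ≤ exp M * len i and len i ≤ ∑_{l < m} < θ,
so len (i+1) ≤ exp M * θ ≤ 1.
-/
import Pool.Agent.H46.TT.Defs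

set_option autoImplicit false

namespace Pool.Agent.H46.TT

open Set MeasureTheory Pool.Agent.H42.EM

private lemma D1_deriv {A : Sys} {M : ℝ} (hM : A.LipS M) {s : Equiv.Perm ℝ} (hs : s ∈ A.S) (u : ℝ) :
    deriv (⇑s) u ≤ Real.exp M := by
  have gs : Good s := A.good (A.S_mem hs)
  obtain ⟨ξ, hξ, h1⟩ := gs.mvt (a := u) (b := u + 1) (by linarith)
  have h2 : deriv (⇑s) ξ = 1 := by
    have h3 := gs.2.2 u
    rw [h3] at h1
    linarith
  have h3 := (abs_le.1 (hM.2 s hs u ξ)).2
  rw [h2, Real.log_one, sub_zero] at h3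
  have h4 : |u - ξ| ≤ 1 := by
    rw [abs_le]
    constructor <;> linarith [hξ.1, hξ.2]
  have h5 : Real.log (deriv (⇑s) u) ≤ M := by
    have := mul_le_mul_of_nonneg_left h4 hM.1
    linarith
  have h6 := Real.exp_le_exp.2 h5
  rwa [Real.exp_log (gs.pos _)] at h6

private lemma D1_exp : Real.exp (1 / 8) ≤ 8 / 7 := by
  have h1 := Real.add_one_le_exp (-(1 / 8 : ℝ))
  rw [Real.exp_neg] at h1
  have h2 : 0 < Real.exp (1 / 8) := Real.exp_pos _
  have h3 : (7 / 8 : ℝ) ≤ (Real.exp (1 / 8))⁻¹ := by linarith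
  have h4 := mul_le_mul_of_nonneg_right h3 h2.le
  rw [inv_mul_cancel₀ h2.ne'] at h4
  linarith

theorem exists_stop {A : Sys} {M : ℝ} (hM : A.LipS M) {n : ℕ} {w : ℕ → Equiv.Perm ℝ}
    (hw : A.Path n w) {a t θ : ℝ} (ht : 0 < t) (ht1 : 2 * t ≤ 1) (hθ : 0 < θ)
    (hθM : 100 * (M * θ) ≤ 1) (hθe : Real.exp M * θ ≤ 1) (hn : θ ≤ w n (a + t) - w n (a - t)) :
    ∃ m, m ≤ n ∧ θ ≤ ∑ i ∈ Finset.range (m + 1), (w i (a + t) - w i (a - t)) ∧
      (∀ i ≤ m, Osc (w i) (a - 4 * t) (a + 4 * t) (1 / 8)) ∧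
      ∀ i ≤ m, w i (a + t) - w i (a - t) ≤ 1 := by
  classical
  have hpos : ∀ i, i ≤ n → 0 < w i (a + t) - w i (a - t) := by
    intro i hi
    have gw : Good (w i) := A.good (hw.mem hi)
    have := gw.mono (show a - t < a + t by linarith)
    linarith
  have hex : ∃ m, θ ≤ ∑ i ∈ Finset.range (m + 1), (w i (a + t) - w i (a - t)) := by
    refine ⟨n, ?_⟩
    rw [Finset.sum_range_succ]
    have h1 : 0 ≤ ∑ i ∈ Finset.range n, (w i (a + t) - w i (a - t)) :=
      Finset.sum_nonneg fun i hi => (hpos i (Finset.mem_range.1 hi).le).le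
    linarith
  obtain ⟨m, hm⟩ : ∃ m, m = Nat.find hex := ⟨_, rfl⟩
  have hmn : m ≤ n := by
    rw [hm]
    apply Nat.find_min' hex
    rw [Finset.sum_range_succ]
    have h1 : 0 ≤ ∑ i ∈ Finset.range n, (w i (a + t) - w i (a - t)) :=
      Finset.sum_nonneg fun i hi => (hpos i (Finset.mem_range.1 hi).le).le
    linarith
  have hmθ : θ ≤ ∑ i ∈ Finset.range (m + 1), (w i (a + t) - w i (a - t)) := by
    rw [hm]; exact Nat.find_spec hex
  have hlt : ∀ i, i ≤ m → ∑ l ∈ Finset.range i, (w l (a + t) - w l (a - t)) < θ := by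
    intro i hi
    cases i with
    | zero => simpa using hθ
    | succ j =>
      have hj : j < Nat.find hex := by omega
      exact not_le.1 (Nat.find_min hex hj)
  refine ⟨m, hmn, hmθ, ?_, ?_⟩
  · apply ctrl hM (hw.mono hmn) (by linarith)
      (fun i => 4 * Real.exp (1 / 8) * (w i (a + t) - w i (a - t)))
    · intro i hi hosc
      have gw : Good (w i) := A.good (hw.mem (by omega))
      have h1 := osc_ratio gw hosc (u := a - 4 * t) (v := a + 4 * t) (u' := a - t) (v' := a + t)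
        ⟨le_rfl, by linarith⟩ ⟨by linarith, le_rfl⟩ (by linarith) ⟨by linarith, by linarith⟩
        ⟨by linarith, by linarith⟩ (by linarith)
      have h2 : (w i (a + 4 * t) - w i (a - 4 * t)) * (2 * t)
          ≤ (4 * Real.exp (1 / 8) * (w i (a + t) - w i (a - t))) * (2 * t) := by
        calc (w i (a + 4 * t) - w i (a - 4 * t)) * (2 * t)
            = (w i (a + 4 * t) - w i (a - 4 * t)) * (a + t - (a - t)) := by ring
          _ ≤ Real.exp (1 / 8) * ((w i (a + t) - w i (a - t)) * (a + 4 * t - (a - 4 * t))) := h1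
          _ = (4 * Real.exp (1 / 8) * (w i (a + t) - w i (a - t))) * (2 * t) := by ring
      exact le_of_mul_le_mul_right h2 (by linarith)
    · intro i hi
      rw [← Finset.mul_sum]
      have h1 := (hlt i hi).le
      have h2 : M * ∑ l ∈ Finset.range i, (w l (a + t) - w l (a - t)) ≤ M * θ :=
        mul_le_mul_of_nonneg_left h1 hM.1
      have h3 : 0 < Real.exp (1 / 8) := Real.exp_pos _
      have h4 := D1_exp
      have h5 : 0 ≤ M * θ := mul_nonneg hM.1 hθ.le
      calc M * (4 * Real.exp (1 / 8) * ∑ l ∈ Finset.range i, (w l (a + t) - w l (a - t)))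
          = 4 * Real.exp (1 / 8) * (M * ∑ l ∈ Finset.range i, (w l (a + t) - w l (a - t))) := by
            ring
        _ ≤ 4 * Real.exp (1 / 8) * (M * θ) :=
            mul_le_mul_of_nonneg_left h2 (by positivity)
        _ ≤ 4 * (8 / 7) * (M * θ) := by
            apply mul_le_mul_of_nonneg_right _ h5
            linarith
        _ ≤ 1 / 8 := by linarith
  · intro i hi
    cases i with
    | zero =>
      rw [hw.1]
      simp only [Equiv.Perm.coe_one, id]
      linarith
    | succ j =>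
      obtain ⟨s, hs, he⟩ := hw.2 j (by omega)
      have gs : Good s := A.good (A.S_mem hs)
      have gw : Good (w j) := A.good (hw.mem (by omega))
      have h1 : w j (a - t) < w j (a + t) := gw.mono (by linarith)
      obtain ⟨ξ, -, h2⟩ := gs.mvt h1
      have h3 := D1_deriv hM hs ξ
      have h4 : w j (a + t) - w j (a - t) < θ := by
        have h5 := hlt (j + 1) hi
        rw [Finset.sum_range_succ] at h5
        have h6 : 0 ≤ ∑ i ∈ Finset.range j, (w i (a + t) - w i (a - t)) :=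
          Finset.sum_nonneg fun i hi => (hpos i (by have := Finset.mem_range.1 hi; omega)).le
        linarith
      rw [he, Equiv.Perm.mul_apply, Equiv.Perm.mul_apply, h2]
      calc deriv (⇑s) ξ * (w j (a + t) - w j (a - t))
          ≤ Real.exp M * (w j (a + t) - w j (a - t)) :=
            mul_le_mul_of_nonneg_right h3 (by linarith)
        _ ≤ Real.exp M * θ := mul_le_mul_of_nonneg_left h4.le (Real.exp_pos _).le
        _ ≤ 1 := hθe

end Pool.Agent.H46.TT
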