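/-
MP_12179d_TT : definitions.

`Coh A` is a measurable invariant part `X` of the minimal set together with a measurable solution `s` of the
cohomological equation `s (g x) = s x + log g' x`.  The aim is `Core.lean`: `volume X = 0`.
-/
import Pool.Agent.H42.EM.Ctr

set_option autoImplicit false

namespace Pool.Agent.H46.TT

open Set MeasureTheory Pool.Agent.H42.EM

/-- A measurable invariant part of the minimal set with a measurable solution of the cohomological equation. -/
structure Coh (A : Sys) where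
  X : Set ℝ
  s : ℝ → ℝ
  hX : MeasurableSet X
  hs : Measurable s
  sub : X ⊆ A.L
  inv : ∀ g ∈ A.G, ∀ x, g x ∈ X ↔ x ∈ X
  coh : ∀ g ∈ A.G, ∀ x ∈ X, s (g x) = s x + Real.log (deriv (⇑g) x)

/-- narrow window of levels -/
def Coh.V {A : Sys} (P : Coh A) (c : ℝ) : Set ℝ := {y | y ∈ P.X ∧ |P.s y - c| ≤ 1 / 8}

/-- wide window of levels -/
def Coh.W {A : Sys} (P : Coh A) (c : ℝ) : Set ℝ := {y | y ∈ P.X ∧ |P.s y - c| ≤ 1 / 4}

/-- `E` occupies at least `99 / 100` of every interval around `z` of length less than `r` -/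
def Dn (E : Set ℝ) (r : ℝ) : Set ℝ :=
  {z | ∀ a b : ℝ, a < b → b - a < r → z ∈ Icc a b →
    volume (Icc a b \ E) ≤ ENNReal.ofReal ((b - a) / 100)}

lemma Coh.measV {A : Sys} (P : Coh A) (c : ℝ) : MeasurableSet (P.V c) :=
  P.hX.inter (measurableSet_le (P.hs.sub_const c).abs measurable_const)

lemma Coh.measW {A : Sys} (P : Coh A) (c : ℝ) : MeasurableSet (P.W c) :=
  P.hX.inter (measurableSet_le (P.hs.sub_const c).abs measurable_const)

lemma Coh.W_near {A : Sys} (P : Coh A) {c c' y : ℝ} (h : y ∈ P.W c) (h' : y ∈ P.W c') :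
    |c - c'| ≤ 1 / 2 := by
  have h1 := abs_le.1 h.2
  have h2 := abs_le.1 h'.2
  rw [abs_le]
  constructor <;> linarith [h1.1, h1.2, h2.1, h2.2]

lemma Coh.V_sub {A : Sys} (P : Coh A) (c : ℝ) : P.V c ⊆ P.W c := fun y hy =>
  ⟨hy.1, hy.2.trans (by norm_num)⟩

lemma countG (A : Sys) : (A.G : Set (Equiv.Perm ℝ)).Countable := by
  have hF : Set.range (fun o : Option (Fin A.n) => o.elim (T : Equiv.Perm ℝ) A.f) =
      insert (Equiv.addRight (1 : ℝ) : Equiv.Perm ℝ) (Set.range A.f) := by
    ext g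
    simp only [mem_range, mem_insert_iff]
    constructor
    · rintro ⟨o, rfl⟩
      cases o with
      | none => exact Or.inl rfl
      | some i => exact Or.inr ⟨i, rfl⟩
    · rintro (rfl | ⟨i, rfl⟩)
      · exact ⟨none, rfl⟩
      · exact ⟨some i, rfl⟩
  have hG : A.G = (FreeGroup.lift (fun o : Option (Fin A.n) => o.elim (T : Equiv.Perm ℝ) A.f)).range := by
    rw [FreeGroup.range_lift_eq_closure, hF]
  have hc : Countable (FreeGroup (Option (Fin A.n))) := by
    unfold FreeGroup
    infer_instance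
  rw [hG, MonoidHom.coe_range]
  exact Set.countable_range _

/-- integer translates -/
lemma Coh.trX {A : Sys} (P : Coh A) {x : ℝ} (k : ℤ) : x + k ∈ P.X ↔ x ∈ P.X := by
  have := P.inv (T ^ k) (A.Tz_mem k) x
  rwa [T_zpow] at this

end Pool.Agent.H46.TT
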