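/-
F1 : two meeting images: the centre of the second lies in the enlarged first one.

PROOF.
* disj: log g' x and log h' y: s (g x) = s x + log g' x, s (h y) = s y + log h' y, g x = h y and |s x - s y| ≤ 1/2 give log h' y ≤ log g' x + 1/2, so
  h' y ≤ exp (1/2) g' x.  By osc_deriv_le (u, v between y and a, |y - a| ≤ t): |h a - h y| ≤ exp (1/8) h' y t ≤ exp (5/8) g' x t.
  Put L = exp (3/4) t ≤ 3 t (exp (3/4) ≤ 3).  [x - L, x + L] ⊆ [a - 4 t, a + 4 t]; by osc_le_deriv g' x L ≤ exp (1/8) (g (x + L) - g x), i.e. g (x + L) - g x ≥ exp (5/8) g' x t, same on the left.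
  So h a ∈ [g (x - L), g (x + L)] (as g x = h y), hence u = g⁻¹ (h a) ∈ [x - L, x + L] (strict monotonicity).
-/
import Pool.Agent.H46.TT.Defs

set_option autoImplicit false

namespace Pool.Agent.H46.TT

open Set MeasureTheory Pool.Agent.H42.EM

lemma F1_abs {g : Equiv.Perm ℝ} (hg : Good g) {p q E x u v : ℝ} (h : Osc g p q E)
    (hx : x ∈ Icc p q) (hu : u ∈ Icc p q) (hv : v ∈ Icc p q) :
    |g u - g v| ≤ Real.exp E * deriv (⇑g) x * |u - v| := by
  rcases le_total u v with huv | huv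
  · have h1 := osc_deriv_le hg h hx hu hv huv
    have h2 : g u ≤ g v := hg.mono.monotone huv
    rw [abs_sub_comm (g u), abs_sub_comm u, abs_of_nonneg (by linarith), abs_of_nonneg (by linarith)]
    exact h1
  · have h1 := osc_deriv_le hg h hx hv hu huv
    have h2 : g v ≤ g u := hg.mono.monotone huv
    rw [abs_of_nonneg (by linarith), abs_of_nonneg (by linarith)]
    exact h1

theorem disj {A : Sys} (P : Coh A) {g h : Equiv.Perm ℝ} (hg : g ∈ A.G) (hh : h ∈ A.G) {a t : ℝ}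
    (ht : 0 < t) (og : Osc g (a - 4 * t) (a + 4 * t) (1 / 8))
    (oh : Osc h (a - 4 * t) (a + 4 * t) (1 / 8)) {x y : ℝ} (hx : x ∈ Icc (a - t) (a + t))
    (hy : y ∈ Icc (a - t) (a + t)) (hxX : x ∈ P.X) (hyX : y ∈ P.X) (hs : |P.s x - P.s y| ≤ 1 / 2)
    (he : g x = h y) : ∃ u ∈ Icc (a - 4 * t) (a + 4 * t), g u = h a := by
  have gg : Good g := A.good hg
  have gh : Good h := A.good hh
  have hdg : 0 < deriv (⇑g) x := gg.pos x
  have hdh : 0 < deriv (⇑h) y := gh.pos y
  obtain ⟨hx1, hx2⟩ := hx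
  obtain ⟨hy1, hy2⟩ := hy
  have hx' : x ∈ Icc (a - 4 * t) (a + 4 * t) := ⟨by linarith, by linarith⟩
  have hy' : y ∈ Icc (a - 4 * t) (a + 4 * t) := ⟨by linarith, by linarith⟩
  have ha' : a ∈ Icc (a - 4 * t) (a + 4 * t) := ⟨by linarith, by linarith⟩
  have c1 := P.coh g hg x hxX
  have c2 := P.coh h hh y hyX
  rw [← he] at c2
  have hs2 := (abs_le.1 hs).2
  have h1 : Real.log (deriv (⇑h) y) ≤ 1 / 2 + Real.log (deriv (⇑g) x) := by linarith
  have h2 : deriv (⇑h) y ≤ Real.exp (1 / 2) * deriv (⇑g) x := by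
    have h3 := Real.exp_le_exp.2 h1
    rwa [Real.exp_add, Real.exp_log hdh, Real.exp_log hdg] at h3
  have hay : |a - y| ≤ t := abs_le.2 ⟨by linarith, by linarith⟩
  have k1 : |h a - h y| ≤ Real.exp (1 / 8) * deriv (⇑h) y * t :=
    (F1_abs gh oh hy' ha' hy').trans (mul_le_mul_of_nonneg_left hay (by positivity))
  have k2 : Real.exp (1 / 8) * |h a - h y| ≤ 3 * (deriv (⇑g) x * t) := by
    have e1 : Real.exp (1 / 8) * |h a - h y| ≤
        Real.exp (1 / 8) * (Real.exp (1 / 8) * (Real.exp (1 / 2) * deriv (⇑g) x) * t) := by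
      refine mul_le_mul_of_nonneg_left (k1.trans ?_) (Real.exp_pos _).le
      refine mul_le_mul_of_nonneg_right ?_ ht.le
      exact mul_le_mul_of_nonneg_left h2 (Real.exp_pos _).le
    have e2 : Real.exp (1 / 8) * (Real.exp (1 / 8) * (Real.exp (1 / 2) * deriv (⇑g) x) * t) =
        Real.exp (3 / 4) * (deriv (⇑g) x * t) := by
      have e3 : Real.exp (3 / 4) = Real.exp (1 / 8) * Real.exp (1 / 8) * Real.exp (1 / 2) := by
        rw [← Real.exp_add, ← Real.exp_add]; norm_num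
      rw [e3]; ring
    have e4 : Real.exp (3 / 4) ≤ 3 :=
      (Real.exp_le_exp.2 (by norm_num)).trans Real.exp_one_lt_three.le
    rw [e2] at e1
    exact e1.trans (mul_le_mul_of_nonneg_right e4 (by positivity))
  have r1 : deriv (⇑g) x * (x + 3 * t - x) ≤ Real.exp (1 / 8) * (g (x + 3 * t) - g x) :=
    osc_le_deriv gg og hx' hx' ⟨by linarith, by linarith⟩ (by linarith)
  have l1 : deriv (⇑g) x * (x - (x - 3 * t)) ≤ Real.exp (1 / 8) * (g x - g (x - 3 * t)) :=
    osc_le_deriv gg og hx' ⟨by linarith, by linarith⟩ hx' (by linarith)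
  have he8 : 0 < Real.exp (1 / 8) := Real.exp_pos _
  have r2 : |h a - h y| ≤ g (x + 3 * t) - g x := by
    refine le_of_mul_le_mul_left ?_ he8
    linarith
  have l2 : |h a - h y| ≤ g x - g (x - 3 * t) := by
    refine le_of_mul_le_mul_left ?_ he8
    linarith
  have r3 := (abs_le.1 r2).2
  have l3 := (abs_le.1 l2).1
  have hmem : h a ∈ Icc (g (x - 3 * t)) (g (x + 3 * t)) := by
    constructor
    · rw [he] at l3; linarith
    · rw [he] at r3; linarith
  obtain ⟨u, hu, hgu⟩ := intermediate_value_Icc (by linarith : x - 3 * t ≤ x + 3 * t)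
    gg.cont.continuousOn hmem
  exact ⟨u, ⟨by linarith [hu.1], by linarith [hu.2]⟩, hgu⟩

end Pool.Agent.H46.TT
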