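/-
V1 : volumes of images under maps of small distortion.

PROOFS.  lintegral_image_eq_lintegral_abs_deriv_mul hQ (fun y _ => (hg.diff y).hasDerivAt.hasDerivWithinAt) hg.mono.injective.injOn (fun _ => 1):
volume (g '' Q) = ∫⁻ y in Q, ofReal |g' y| (setLIntegral_one).  For y ∈ Q ⊆ [α, β]: g' y ≤ exp E g' x and g' x ≤ exp E g' y, from |log g' y - log g' x| ≤ E (Osc).
* vol_image_le: ∫⁻ y in Q, ofReal (g' y) ≤ ∫⁻ y in Q, ofReal (exp E g' x) (setLIntegral_mono') = the constant times volume Q (setLIntegral_const).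
* le_vol_image: ofReal (g' x) volume Q = ∫⁻ y in Q, ofReal (g' x) ≤ ∫⁻ y in Q, ofReal (exp E) * ofReal (g' y) = ofReal (exp E) * volume (g '' Q).
-/
import Pool.Agent.H46.TT.Defs

set_option autoImplicit false

namespace Pool.Agent.H46.TT

open Set MeasureTheory Pool.Agent.H42.EM

lemma V1_image {g : Equiv.Perm ℝ} (hg : Good g) {Q : Set ℝ} (hQ : MeasurableSet Q) :
    volume (⇑g '' Q) = ∫⁻ y in Q, ENNReal.ofReal (deriv (⇑g) y) := by
  have h := lintegral_image_eq_lintegral_abs_deriv_mul (f := ⇑g) (f' := deriv (⇑g)) hQ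
    (fun y _ => (hg.diff y).hasDerivAt.hasDerivWithinAt) hg.mono.injective.injOn (fun _ => 1)
  rw [setLIntegral_one] at h
  rw [h]
  refine setLIntegral_congr_fun hQ fun y _ => ?_
  simp only [mul_one]
  rw [abs_of_pos (hg.pos y)]

lemma V1_cmp {g : Equiv.Perm ℝ} (hg : Good g) {α β E : ℝ} (h : Osc g α β E) {ξ x : ℝ}
    (hξ : ξ ∈ Icc α β) (hx : x ∈ Icc α β) :
    deriv (⇑g) ξ ≤ Real.exp E * deriv (⇑g) x := by
  have h1 := (abs_le.1 (h ξ hξ x hx)).2
  have h2 : Real.log (deriv (⇑g) ξ) ≤ E + Real.log (deriv (⇑g) x) := by linarith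
  have h3 := Real.exp_le_exp.2 h2
  rwa [Real.exp_add, Real.exp_log (hg.pos _), Real.exp_log (hg.pos _)] at h3

lemma vol_image_le {g : Equiv.Perm ℝ} (hg : Good g) {α β E : ℝ} (h : Osc g α β E) {x : ℝ}
    (hx : x ∈ Icc α β) {Q : Set ℝ} (hQ : MeasurableSet Q) (hQs : Q ⊆ Icc α β) :
    volume (⇑g '' Q) ≤ ENNReal.ofReal (Real.exp E * deriv (⇑g) x) * volume Q := by
  rw [V1_image hg hQ, ← setLIntegral_const]
  exact setLIntegral_mono' hQ fun y hy => ENNReal.ofReal_le_ofReal (V1_cmp hg h (hQs hy) hx)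

lemma le_vol_image {g : Equiv.Perm ℝ} (hg : Good g) {α β E : ℝ} (h : Osc g α β E) {x : ℝ}
    (hx : x ∈ Icc α β) {Q : Set ℝ} (hQ : MeasurableSet Q) (hQs : Q ⊆ Icc α β) :
    ENNReal.ofReal (deriv (⇑g) x) * volume Q ≤ ENNReal.ofReal (Real.exp E) * volume (⇑g '' Q) := by
  rw [V1_image hg hQ, ← setLIntegral_const, ← lintegral_const_mul' _ _ ENNReal.ofReal_ne_top]
  refine setLIntegral_mono' hQ fun y hy => ?_
  rw [← ENNReal.ofReal_mul (Real.exp_pos E).le]
  exact ENNReal.ofReal_le_ofReal (V1_cmp hg h hx (hQs hy))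

end Pool.Agent.H46.TT
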