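/-
F2 : an interval with badly distributed levels has image with badly distributed levels.

PROOF.
* viol: B = Icc (a-t) (a+t).  Let V = P.V (P.s (g x)), W = P.W (P.s x).  (i) g '' (B \ W) ⊆ Icc (g (a-t)) (g (a+t)) \ V: if y ∈ B and g y ∈ V then y ∈ X (P.inv), and
  s y - s x = s (g y) - log g' y - s (g x) + log g' x has absolute value ≤ 1/8 + 1/8 (Osc), so y ∈ W.
  (ii) le_vol_image with Q = B \ W, point x: g' x * (t/5) ≤ exp (1/8) * volume (g '' (B \ W)) ≤ exp (1/8) * volume (Icc (g (a-t)) (g (a+t)) \ V).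
  (iii) osc_deriv_le: len = g (a+t) - g (a-t) ≤ exp (1/8) g' x (2 t).  So len / 100 ≤ exp (1/8) g' x t / 50, whereas volume (..\ V) ≥ exp (-1/8) g' x t / 5 > exp (1/8) g' x t / 50
  since exp (1/4) < 10.
-/
import Pool.Agent.H46.TT.V1

set_option autoImplicit false

namespace Pool.Agent.H46.TT

open Set MeasureTheory Pool.Agent.H42.EM

private lemma F2_exp : Real.exp (1 / 8) * Real.exp (1 / 8) < 10 := by
  have h1 : Real.exp (1 / 8) < 3 := by
    have h2 : Real.exp (1 / 8) ≤ Real.exp 1 := Real.exp_le_exp.2 (by norm_num)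
    linarith [Real.exp_one_lt_d9]
  have h0 : 0 < Real.exp (1 / 8) := Real.exp_pos _
  nlinarith

theorem viol {A : Sys} (P : Coh A) {g : Equiv.Perm ℝ} (hg : g ∈ A.G) {a t : ℝ} (ht : 0 < t)
    (og : Osc g (a - t) (a + t) (1 / 8)) {x : ℝ} (hx : x ∈ Icc (a - t) (a + t)) (hxX : x ∈ P.X)
    (hW : ENNReal.ofReal (t / 5) ≤ volume (Icc (a - t) (a + t) \ P.W (P.s x))) :
    ENNReal.ofReal ((g (a + t) - g (a - t)) / 100) <
      volume (Icc (g (a - t)) (g (a + t)) \ P.V (P.s (g x))) := by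
  have gg : Good g := A.good hg
  have hsub : ⇑g '' (Icc (a - t) (a + t) \ P.W (P.s x)) ⊆
      Icc (g (a - t)) (g (a + t)) \ P.V (P.s (g x)) := by
    rintro z ⟨y, ⟨hy, hyW⟩, rfl⟩
    refine ⟨⟨gg.mono.monotone hy.1, gg.mono.monotone hy.2⟩, fun hV => hyW ?_⟩
    have hyX : y ∈ P.X := (P.inv g hg y).1 hV.1
    refine ⟨hyX, ?_⟩
    have h1 := abs_le.1 hV.2
    have h2 := abs_le.1 (og y hy x hx)
    have h3 := P.coh g hg y hyX
    have h4 := P.coh g hg x hxX
    rw [abs_le]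
    constructor <;> linarith [h1.1, h1.2, h2.1, h2.2]
  by_contra hcon
  have hcon' := not_lt.1 hcon
  have hd : 0 < deriv (⇑g) x := gg.pos x
  have h1 : ENNReal.ofReal (deriv (⇑g) x) * ENNReal.ofReal (t / 5) ≤
      ENNReal.ofReal (Real.exp (1 / 8)) * ENNReal.ofReal ((g (a + t) - g (a - t)) / 100) := by
    calc ENNReal.ofReal (deriv (⇑g) x) * ENNReal.ofReal (t / 5)
        ≤ ENNReal.ofReal (deriv (⇑g) x) * volume (Icc (a - t) (a + t) \ P.W (P.s x)) := by
          gcongr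
      _ ≤ ENNReal.ofReal (Real.exp (1 / 8)) *
          volume (⇑g '' (Icc (a - t) (a + t) \ P.W (P.s x))) :=
          le_vol_image gg og hx (measurableSet_Icc.diff (P.measW _)) Set.sdiff_subset
      _ ≤ ENNReal.ofReal (Real.exp (1 / 8)) * ENNReal.ofReal ((g (a + t) - g (a - t)) / 100) := by
          gcongr
          exact (measure_mono hsub).trans hcon'
  rw [← ENNReal.ofReal_mul hd.le, ← ENNReal.ofReal_mul (Real.exp_pos _).le] at h1
  have hlen : g (a - t) ≤ g (a + t) := gg.mono.monotone (by linarith)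
  have h2 : deriv (⇑g) x * (t / 5) ≤
      Real.exp (1 / 8) * ((g (a + t) - g (a - t)) / 100) := by
    refine (ENNReal.ofReal_le_ofReal_iff ?_).1 h1
    exact mul_nonneg (Real.exp_pos _).le (by linarith)
  have h3 := osc_deriv_le gg og hx (u := a - t) (v := a + t) ⟨le_rfl, by linarith⟩
    ⟨by linarith, le_rfl⟩ (by linarith)
  have h4 : Real.exp (1 / 8) * (g (a + t) - g (a - t)) ≤
      Real.exp (1 / 8) * (Real.exp (1 / 8) * deriv (⇑g) x * (a + t - (a - t))) :=
    mul_le_mul_of_nonneg_left h3 (Real.exp_pos _).le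
  have h5 : Real.exp (1 / 8) * (Real.exp (1 / 8) * deriv (⇑g) x * (a + t - (a - t))) =
      (Real.exp (1 / 8) * Real.exp (1 / 8)) * (2 * (deriv (⇑g) x * t)) := by ring
  have h6 : 0 < deriv (⇑g) x * t := mul_pos hd ht
  have h7 : (Real.exp (1 / 8) * Real.exp (1 / 8)) * (2 * (deriv (⇑g) x * t)) <
      10 * (2 * (deriv (⇑g) x * t)) :=
    mul_lt_mul_of_pos_right F2_exp (by linarith)
  nlinarith

end Pool.Agent.H46.TT
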