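/-
P1 : the shortest word moving an interval over a given gap.

PROOF.  Let Q n say: there are a path w of length n and k : ℤ with (w n)⁻¹ (a₀ + k) ∈ Ioo x z.
Q n holds for some n: A.dense_orbit for a₀ ∈ L, y ∈ L, ε = min (y - x) (z - y) gives g ∈ G with g a₀ ∈ Ioo x z; exists_path for g⁻¹:
g⁻¹ = T ^ k * w n, so g a₀ = (w n)⁻¹ (T ^ (-k) a₀) = (w n)⁻¹ (a₀ + (-k)) (T_zpow; mul_inv_rev).  Let n be minimal (Nat.find), with w, k.
Put a = (w n)⁻¹ (a₀ + k), b = (w n)⁻¹ (b₀ + k).  IsGap (a₀ + k) (b₀ + k) (IsGap.add_int), so IsGap a b (IsGap.image with (w n)⁻¹ ∈ G, Path.mem, inv_mem).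
b ≤ z: otherwise z ∈ Ioo a b (a < z) is not in L.
Last statement: suppose i < j ≤ n, x < u < z and w i u = w j a + k'.  The path w' l = w l for l < i and w' l = w (l - i + j) * (w j)⁻¹ * w i for l ≥ i,
of length n - (j - i) < n (this construction is carried out in the proof of Sys.min_path in EM/Pth.lean: copy it), ends at
w' (n - (j - i)) = w n * (w j)⁻¹ * w i, which sends u to w n ((w j)⁻¹ (w j a + k')) = w n (a + k') = w n a + k' = a₀ + (k + k') (Good.add_int for w n and (w j)⁻¹).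
So (w' (n - (j-i)))⁻¹ (a₀ + (k + k')) = u ∈ Ioo x z, Q (n - (j - i)) holds: contradiction with minimality.
-/
import Pool.Agent.H46.TT.Defs

set_option autoImplicit false

namespace Pool.Agent.H46.TT

open Set MeasureTheory Pool.Agent.H42.EM

theorem exists_short (A : Sys) {a₀ b₀ : ℝ} (h₀ : IsGap A.L a₀ b₀) {x y z : ℝ} (hxy : x < y)
    (hyz : y < z) (hy : y ∈ A.L) (hz : z ∈ A.L) :
    ∃ (n : ℕ) (w : ℕ → Equiv.Perm ℝ) (a b : ℝ) (k : ℤ), A.Path n w ∧ IsGap A.L a b ∧
      x < a ∧ b ≤ z ∧ w n a = a₀ + k ∧ w n b = b₀ + k ∧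
      ∀ i j, i < j → j ≤ n → ∀ (k' : ℤ) (u : ℝ), x < u → u < z → w i u ≠ w j a + k' := by
  classical
  have hex : ∃ n : ℕ, ∃ (w : ℕ → Equiv.Perm ℝ) (k : ℤ), A.Path n w ∧
      (w n)⁻¹ (a₀ + k) ∈ Ioo x z := by
    obtain ⟨g, hg, hlt⟩ := A.dense_orbit h₀.2.1 hy (ε := min (y - x) (z - y))
      (lt_min (by linarith) (by linarith))
    obtain ⟨n, w, k, hw, hgw⟩ := A.exists_path (inv_mem hg)
    refine ⟨n, w, -k, hw, ?_⟩
    have e1 : g = (w n)⁻¹ * (T ^ (-k)) := by
      rw [← inv_inv g, hgw, mul_inv_rev, zpow_neg]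
    have e2 : g a₀ = (w n)⁻¹ (a₀ + ((-k : ℤ) : ℝ)) := by
      rw [← T_zpow, ← Equiv.Perm.mul_apply, ← e1]
    rw [← e2]
    have h1 := abs_lt.1 (lt_of_lt_of_le hlt (min_le_left _ _))
    have h2 := abs_lt.1 (lt_of_lt_of_le hlt (min_le_right _ _))
    constructor
    · linarith [h1.1]
    · linarith [h2.2]
  obtain ⟨w, k, hw, he⟩ := Nat.find_spec hex
  have hmin := fun m hm => Nat.find_min hex (m := m) hm
  generalize Nat.find hex = n at hw he hmin
  have hwG : w n ∈ A.G := hw.mem le_rfl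
  have hgap : IsGap A.L ((w n)⁻¹ (a₀ + k)) ((w n)⁻¹ (b₀ + k)) :=
    (h₀.add_int A k).image A (inv_mem hwG)
  refine ⟨n, w, (w n)⁻¹ (a₀ + k), (w n)⁻¹ (b₀ + k), k, hw, hgap, he.1, ?_, by simp, by simp, ?_⟩
  · by_contra hcon
    exact hgap.2.2.2 z ⟨he.2, not_le.1 hcon⟩ hz
  · intro i j hij hj k' u hxu huz heq
    refine hmin (n - (j - i)) (by omega)
      ⟨fun l => if l < i then w l else w (l - i + j) * (w j)⁻¹ * w i, k + k', ⟨?_, ?_⟩, ?_⟩
    · rcases Nat.eq_zero_or_pos i with h0 | h0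
      · subst h0
        simp [hw.1]
      · simp only [h0, if_true]
        exact hw.1
    · intro l hl
      rcases lt_trichotomy (l + 1) i with h1 | h1 | h1
      · obtain ⟨s, hs, h2⟩ := hw.2 l (by omega)
        refine ⟨s, hs, ?_⟩
        simp only [if_pos h1, if_pos (show l < i by omega)]
        exact h2
      · obtain ⟨s, hs, h2⟩ := hw.2 l (by omega)
        refine ⟨s, hs, ?_⟩
        simp only [if_neg (show ¬ l + 1 < i by omega), if_pos (show l < i by omega)]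
        rw [← h2, h1, Nat.sub_self, Nat.zero_add, mul_inv_cancel, one_mul]
      · obtain ⟨s, hs, h2⟩ := hw.2 (l - i + j) (by omega)
        refine ⟨s, hs, ?_⟩
        simp only [if_neg (show ¬ l + 1 < i by omega), if_neg (show ¬ l < i by omega)]
        rw [show l + 1 - i + j = l - i + j + 1 by omega, h2, mul_assoc, mul_assoc, mul_assoc]
    · simp only [if_neg (show ¬ n - (j - i) < i by omega)]
      rw [show n - (j - i) - i + j = n by omega]
      have hgj : Good (w j)⁻¹ := (A.good (hw.mem hj)).inv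
      have hgn : Good (w n) := A.good hwG
      have e3 : (w n * (w j)⁻¹ * w i) u = a₀ + ((k + k' : ℤ) : ℝ) := by
        rw [Equiv.Perm.mul_apply, Equiv.Perm.mul_apply, heq, hgj.add_int]
        rw [show (w j)⁻¹ ((w j) ((w n)⁻¹ (a₀ + k))) = (w n)⁻¹ (a₀ + k) by simp, hgn.add_int,
          show (w n) ((w n)⁻¹ (a₀ + k)) = a₀ + k by simp]
        push_cast
        ring
      have e4 : (w n * (w j)⁻¹ * w i)⁻¹ (a₀ + ((k + k' : ℤ) : ℝ)) = u := by
        rw [← e3]
        simp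
      rw [e4]
      exact ⟨hxu, huz⟩

end Pool.Agent.H46.TT
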