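/-
V2 : an image keeps half of the volume.

PROOF (see V1 for the volume inequalities).
* half: B = Icc (a-t) (a+t), x = a.  ofReal (g' a) * volume B ≤ ofReal (exp (1/8)) * volume (g '' B), and g '' B = Icc (g (a-t)) (g (a+t)) (or use the mean value inequality
  osc_le_deriv: g' a * 2t ≤ exp(1/8) * len, len = g (a+t) - g (a-t)).  volume (g '' (B \ Q)) ≤ exp (1/8) g' a * (2 t/5) ≤ exp (1/4) /5 * len ≤ len / 2 (exp (1/4) ≤ 4/3).
  Icc (g (a-t)) (g (a+t)) ⊆ g '' B = g '' (B \ Q) ∪ g '' (B ∩ Q) (intermediate value / surjectivity and monotonicity of g), so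
  len ≤ len / 2 + volume (g '' (B ∩ Q)).
-/
import Pool.Agent.H46.TT.V1

set_option autoImplicit false

namespace Pool.Agent.H46.TT

open Set MeasureTheory Pool.Agent.H42.EM

lemma vol_half {g : Equiv.Perm ℝ} (hg : Good g) {a t : ℝ} (ht : 0 < t)
    (h : Osc g (a - t) (a + t) (1 / 8)) {Q : Set ℝ} (hQ : MeasurableSet Q)
    (hQs : volume (Icc (a - t) (a + t) \ Q) ≤ ENNReal.ofReal (2 * t / 5)) :
    ENNReal.ofReal ((g (a + t) - g (a - t)) / 2) ≤ volume (⇑g '' (Icc (a - t) (a + t) ∩ Q)) := by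
  have hlt : a - t ≤ a + t := by linarith
  have ha : a ∈ Icc (a - t) (a + t) := ⟨by linarith, by linarith⟩
  have hd := osc_le_deriv hg h ha (left_mem_Icc.2 hlt) (right_mem_Icc.2 hlt) hlt
  have hlen : 0 ≤ g (a + t) - g (a - t) := sub_nonneg.2 (hg.mono.monotone hlt)
  have hga := hg.2.1 a
  have he1 : Real.exp (1 / 8) * Real.exp (1 / 8) ≤ 4 / 3 := by
    rw [← Real.exp_add]
    have h1 := Real.add_one_le_exp (-(1 / 4 : ℝ))
    have h2 : Real.exp (1 / 8 + 1 / 8) * Real.exp (-(1 / 4)) = 1 := by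
      rw [← Real.exp_add]
      norm_num
    have h3 := Real.exp_pos (1 / 8 + 1 / 8 : ℝ)
    nlinarith
  have he0 := Real.exp_pos (1 / 8 : ℝ)
  have hb : Real.exp (1 / 8) * deriv (⇑g) a * (2 * t / 5) ≤ (g (a + t) - g (a - t)) / 2 := by
    have h1 : Real.exp (1 / 8) * (deriv (⇑g) a * (a + t - (a - t)))
        ≤ Real.exp (1 / 8) * (Real.exp (1 / 8) * (g (a + t) - g (a - t))) :=
      mul_le_mul_of_nonneg_left hd he0.le
    have h2 : Real.exp (1 / 8) * (Real.exp (1 / 8) * (g (a + t) - g (a - t)))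
        ≤ 4 / 3 * (g (a + t) - g (a - t)) := by
      rw [← mul_assoc]
      exact mul_le_mul_of_nonneg_right he1 hlen
    have h3 : Real.exp (1 / 8) * (deriv (⇑g) a * (a + t - (a - t)))
        = 5 * (Real.exp (1 / 8) * deriv (⇑g) a * (2 * t / 5)) := by ring
    linarith
  have hv1 : volume (⇑g '' (Icc (a - t) (a + t) \ Q)) ≤ ENNReal.ofReal ((g (a + t) - g (a - t)) / 2) := by
    refine (vol_image_le hg h ha (measurableSet_Icc.diff hQ) sdiff_subset).trans ?_
    refine (mul_le_mul_right hQs _).trans ?_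
    rw [← ENNReal.ofReal_mul (by positivity)]
    exact ENNReal.ofReal_le_ofReal hb
  have hsub : Icc (g (a - t)) (g (a + t)) ⊆
      ⇑g '' (Icc (a - t) (a + t) \ Q) ∪ ⇑g '' (Icc (a - t) (a + t) ∩ Q) := by
    intro y hy
    obtain ⟨x, hx, rfl⟩ := intermediate_value_Icc hlt hg.cont.continuousOn hy
    by_cases hxQ : x ∈ Q
    · exact Or.inr ⟨x, ⟨hx, hxQ⟩, rfl⟩
    · exact Or.inl ⟨x, ⟨hx, hxQ⟩, rfl⟩
  have hv2 : ENNReal.ofReal (g (a + t) - g (a - t)) ≤
      ENNReal.ofReal ((g (a + t) - g (a - t)) / 2) + volume (⇑g '' (Icc (a - t) (a + t) ∩ Q)) := by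
    rw [← Real.volume_Icc]
    exact (measure_mono hsub).trans ((measure_union_le _ _).trans (add_le_add_left hv1 _))
  have he : ENNReal.ofReal (g (a + t) - g (a - t)) =
      ENNReal.ofReal ((g (a + t) - g (a - t)) / 2) + ENNReal.ofReal ((g (a + t) - g (a - t)) / 2) := by
    rw [← ENNReal.ofReal_add (by linarith) (by linarith)]
    congr 1
    ring
  rw [he] at hv2
  exact (ENNReal.add_le_add_iff_left ENNReal.ofReal_ne_top).1 hv2

end Pool.Agent.H46.TT
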