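/-
W1b : almost every point of `E` is a density point.

PROOF.
* Dn_ae: IsUnifLocDoublingMeasure.ae_tendsto_measure_inter_div volume E 1 : for a.e. x in E (volume.restrict E; ae_restrict_iff' hE),
  for all centres w j and radii δ j → 0+ with x ∈ closedBall (w j) (1 * δ j), volume (E ∩ closedBall (w j) (δ j)) / volume (closedBall (w j) (δ j)) → 1.
  If x ∉ Dn E (1 / (n + 1)) for all n, choose a n < b n (push_neg, choose), and take w n = (a n + b n)/2, δ n = (b n - a n)/2
  (Real.closedBall_eq_Icc; δ n → 0+ by squeeze with 1/(n+1)).  Then volume (E ∩ Icc) ≤ volume Icc - volume (Icc \ E) ≤ 99/100 volume Icc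
  (measure_inter_add_diff), so the ratio is ≤ 99/100 for all n: contradiction with the limit 1 (le_of_tendsto).
-/
import Pool.Agent.H46.TT.Defs

set_option autoImplicit false

namespace Pool.Agent.H46.TT

open Set MeasureTheory Pool.Agent.H42.EM

lemma W1b_ratio {E : Set ℝ} (hE : MeasurableSet E) {a b : ℝ} (hab : a < b)
    (h : ¬ volume (Icc a b \ E) ≤ ENNReal.ofReal ((b - a) / 100)) :
    volume (E ∩ Icc a b) / volume (Icc a b) ≤ ENNReal.ofReal (99 / 100) := by
  apply ENNReal.div_le_of_le_mul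
  have h1 : volume (Icc a b ∩ E) + volume (Icc a b \ E) = volume (Icc a b) :=
    measure_inter_add_sdiff _ hE
  have h2 : volume (Icc a b) = ENNReal.ofReal (b - a) := Real.volume_Icc
  have hfin : volume (Icc a b \ E) ≠ ⊤ := by
    refine ne_top_of_le_ne_top ?_ (measure_mono sdiff_subset)
    rw [h2]
    exact ENNReal.ofReal_ne_top
  have hfin2 : volume (Icc a b ∩ E) ≠ ⊤ := by
    refine ne_top_of_le_ne_top ?_ (measure_mono inter_subset_left)
    rw [h2]
    exact ENNReal.ofReal_ne_top
  have h0 : 0 < b - a := by linarith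
  rw [inter_comm, h2, ← ENNReal.ofReal_mul (by norm_num)]
  rw [h2] at h1
  rw [not_le] at h
  have e1 : (volume (Icc a b ∩ E)).toReal + (volume (Icc a b \ E)).toReal = b - a := by
    rw [← ENNReal.toReal_add hfin2 hfin, h1, ENNReal.toReal_ofReal h0.le]
  have e2 : (b - a) / 100 ≤ (volume (Icc a b \ E)).toReal := by
    have h3 := ENNReal.toReal_mono hfin h.le
    rwa [ENNReal.toReal_ofReal (by positivity)] at h3
  rw [← ENNReal.ofReal_toReal hfin2]
  apply ENNReal.ofReal_le_ofReal
  linarith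

lemma Dn_ae {E : Set ℝ} (hE : MeasurableSet E) :
    volume (E \ ⋃ n : ℕ, Dn E (1 / (n + 1))) = 0 := by
  have h := IsUnifLocDoublingMeasure.ae_tendsto_measure_inter_div (volume : Measure ℝ) E 1
  rw [ae_restrict_iff' hE, ae_iff] at h
  refine measure_mono_null ?_ h
  intro x hx hP
  have hx1 : x ∈ E := hx.1
  have hx2 : ∀ n : ℕ, x ∉ Dn E (1 / ((n : ℝ) + 1)) := by
    intro n hn
    exact hx.2 (mem_iUnion.2 ⟨n, hn⟩)
  have hx3 : ∀ n : ℕ, ∃ p : ℝ × ℝ, p.1 < p.2 ∧ p.2 - p.1 < 1 / ((n : ℝ) + 1) ∧ x ∈ Icc p.1 p.2 ∧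
      ¬ volume (Icc p.1 p.2 \ E) ≤ ENNReal.ofReal ((p.2 - p.1) / 100) := by
    intro n
    by_contra hcon
    apply hx2 n
    intro a b hab hbr hxab
    by_contra hv
    exact hcon ⟨(a, b), hab, hbr, hxab, hv⟩
  choose p hp1 hp2 hp3 hp4 using hx3
  have hball : ∀ n, Metric.closedBall (((p n).1 + (p n).2) / 2) (((p n).2 - (p n).1) / 2) =
      Icc (p n).1 (p n).2 := by
    intro n
    rw [Real.closedBall_eq_Icc]
    congr 1 <;> ring
  have hlim := hP hx1 (l := Filter.atTop) (fun n : ℕ => ((p n).1 + (p n).2) / 2)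
    (fun n => ((p n).2 - (p n).1) / 2) ?_ ?_
  · have hle : ∀ᶠ n in (Filter.atTop : Filter ℕ),
        volume (E ∩ Metric.closedBall (((p n).1 + (p n).2) / 2) (((p n).2 - (p n).1) / 2)) /
          volume (Metric.closedBall (((p n).1 + (p n).2) / 2) (((p n).2 - (p n).1) / 2)) ≤
        ENNReal.ofReal (99 / 100) := by
      refine Filter.Eventually.of_forall fun n => ?_
      rw [hball n]
      exact W1b_ratio hE (hp1 n) (hp4 n)
    have h1 := le_of_tendsto hlim hle
    rw [← ENNReal.ofReal_one, ENNReal.ofReal_le_ofReal_iff (by norm_num)] at h1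
    norm_num at h1
  · rw [tendsto_nhdsWithin_iff]
    refine ⟨?_, Filter.Eventually.of_forall fun n => ?_⟩
    · refine squeeze_zero (fun n => ?_) (fun n => ?_) tendsto_one_div_add_atTop_nhds_zero_nat
      · have := hp1 n
        linarith
      · have h1 := hp1 n
        have h2 := hp2 n
        linarith
    · have := hp1 n
      rw [mem_Ioi]
      linarith
  · refine Filter.Eventually.of_forall fun n => ?_
    rw [one_mul, hball n]
    exact hp3 n

end Pool.Agent.H46.TT
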