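import Pool.Agent.H46.TT.W1a
import Pool.Agent.H46.TT.W1b

set_option autoImplicit false

namespace Pool.Agent.H46.TT

open Set MeasureTheory Pool.Agent.H42.EM

lemma Dn_anti {E : Set ℝ} {r r' : ℝ} (h : r' ≤ r) : Dn E r ⊆ Dn E r' :=
  fun _ hz a b hab hb hz' => hz a b hab (hb.trans_le h) hz'

lemma Dn_mono {E F : Set ℝ} {r : ℝ} (h : E ⊆ F) : Dn E r ⊆ Dn F r :=
  fun _ hz a b hab hb hz' => (measure_mono (sdiff_subset_sdiff_right h)).trans (hz a b hab hb hz')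

end Pool.Agent.H46.TT
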