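/-
W2 : the good set `Z` (Lusin-type statement).

PROOF.  Put E q = {x ∈ X | ⌊8 * s x⌋ = q} for q : ℤ (measurable: Int.measurable_floor), Z N = {x ∈ X | s x ≤ N} ∩ ⋃ q, (E q ∩ Dn (E q) (1 / (N + 1))).
Z N is measurable (Dn_closed), increasing in N (Dn_anti).  X \ ⋃ N, Z N is null: it is contained in ⋃ q, (E q \ ⋃ n, Dn (E q) (1/(n+1)))
(given x ∈ E q ∩ Dn (E q) (1/(n+1)), take N ≥ n, N ≥ s x), null by Dn_ae.  The sets (X ∩ Icc (-1) 2) \ Z N decrease, have finite volume,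
and their intersection is null: tendsto_measure_iInter_atTop (or _le), so one of them has volume < ofReal ε.
Take Z = Z N, r = 1/(N+1), C = N.  For z ∈ Z, z ∈ E q: E q ⊆ P.V (P.s z) (two numbers with the same floor of 8 s differ by < 1/8:
Int.abs_sub_lt_one_of_floor_eq_floor), so volume (Icc a b \ V) ≤ volume (Icc a b \ E q) ≤ (b - a) / 100.
-/
import Pool.Agent.H46.TT.W1

set_option autoImplicit false

namespace Pool.Agent.H46.TT

open Set MeasureTheory Pool.Agent.H42.EM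

theorem exists_Z {A : Sys} (P : Coh A) {ε : ℝ} (hε : 0 < ε) :
    ∃ (Z : Set ℝ) (r C : ℝ), MeasurableSet Z ∧ 0 < r ∧
      volume ((P.X ∩ Icc (-1) 2) \ Z) < ENNReal.ofReal ε ∧
      ∀ z ∈ Z, P.s z ≤ C ∧ z ∈ Dn (P.V (P.s z)) r := by
  classical
  let E : ℤ → Set ℝ := fun q => {x | x ∈ P.X ∧ ⌊8 * P.s x⌋ = q}
  have hE : ∀ q, MeasurableSet (E q) := fun q =>
    P.hX.inter ((Int.measurable_floor.comp (P.hs.const_mul 8)) (measurableSet_singleton q))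
  let Z : ℕ → Set ℝ := fun N =>
    {x | x ∈ P.X ∧ P.s x ≤ N} ∩ ⋃ q : ℤ, (E q ∩ Dn (E q) (1 / ((N : ℝ) + 1)))
  have hZm : ∀ N, MeasurableSet (Z N) := fun N =>
    (P.hX.inter (measurableSet_le P.hs measurable_const)).inter
      (MeasurableSet.iUnion fun q => (hE q).inter (Dn_closed _ _).measurableSet)
  have hZmono : ∀ N M : ℕ, N ≤ M → Z N ⊆ Z M := by
    intro N M hNM x hx
    have hc : (N : ℝ) ≤ M := by exact_mod_cast hNM
    have hN0 : (0 : ℝ) ≤ N := Nat.cast_nonneg N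
    refine ⟨⟨hx.1.1, hx.1.2.trans hc⟩, ?_⟩
    obtain ⟨q, hq⟩ := mem_iUnion.1 hx.2
    refine mem_iUnion.2 ⟨q, hq.1, Dn_anti ?_ hq.2⟩
    exact one_div_le_one_div_of_le (by linarith) (by linarith)
  have hnull : volume (P.X \ ⋃ N, Z N) = 0 := by
    have hsub : P.X \ ⋃ N, Z N ⊆ ⋃ q : ℤ, (E q \ ⋃ n : ℕ, Dn (E q) (1 / ((n : ℝ) + 1))) := by
      rintro x ⟨hxX, hx⟩
      refine mem_iUnion.2 ⟨⌊8 * P.s x⌋, ⟨hxX, rfl⟩, ?_⟩
      intro hxD
      obtain ⟨n, hn⟩ := mem_iUnion.1 hxD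
      apply hx
      have hnM : n ≤ max n ⌈P.s x⌉₊ := le_max_left _ _
      have hsM : P.s x ≤ ((max n ⌈P.s x⌉₊ : ℕ) : ℝ) :=
        (Nat.le_ceil _).trans (by exact_mod_cast le_max_right _ _)
      have hc : (n : ℝ) ≤ ((max n ⌈P.s x⌉₊ : ℕ) : ℝ) := by exact_mod_cast hnM
      have hn0 : (0 : ℝ) ≤ n := Nat.cast_nonneg n
      refine mem_iUnion.2 ⟨max n ⌈P.s x⌉₊, ⟨hxX, hsM⟩, mem_iUnion.2 ⟨⌊8 * P.s x⌋, ⟨hxX, rfl⟩, ?_⟩⟩
      exact Dn_anti (one_div_le_one_div_of_le (by linarith) (by linarith)) hn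
    refine measure_mono_null hsub (measure_iUnion_null fun q => ?_)
    exact Dn_ae (hE q)
  let D : ℕ → Set ℝ := fun N => (P.X ∩ Icc (-1) 2) \ Z N
  have hDm : ∀ N, NullMeasurableSet (D N) volume := fun N =>
    ((P.hX.inter measurableSet_Icc).diff (hZm N)).nullMeasurableSet
  have hDa : Antitone D := fun N M hNM x hx => ⟨hx.1, fun h => hx.2 (hZmono N M hNM h)⟩
  have hDf : ∃ N, volume (D N) ≠ ⊤ := by
    refine ⟨0, ?_⟩
    have h1 : volume (D 0) ≤ volume (Icc (-1 : ℝ) 2) := measure_mono fun x hx => hx.1.2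
    have h2 : volume (Icc (-1 : ℝ) 2) < ⊤ := measure_Icc_lt_top
    exact (h1.trans_lt h2).ne
  have hlim := tendsto_measure_iInter_atTop hDm hDa hDf
  have h0 : volume (⋂ N, D N) = 0 := by
    refine measure_mono_null ?_ hnull
    intro x hx
    have hx' := mem_iInter.1 hx
    refine ⟨(hx' 0).1.1, ?_⟩
    intro h
    obtain ⟨N, hN⟩ := mem_iUnion.1 h
    exact (hx' N).2 hN
  rw [h0] at hlim
  have hpos : (0 : ENNReal) < ENNReal.ofReal ε := ENNReal.ofReal_pos.2 hε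
  obtain ⟨N, hN⟩ := (hlim.eventually (gt_mem_nhds hpos)).exists
  have hN0 : (0 : ℝ) ≤ N := Nat.cast_nonneg N
  refine ⟨Z N, 1 / ((N : ℝ) + 1), N, hZm N, by positivity, hN, ?_⟩
  intro z hz
  refine ⟨hz.1.2, ?_⟩
  obtain ⟨q, hzE, hzD⟩ := mem_iUnion.1 hz.2
  refine Dn_mono ?_ hzD
  intro y hy
  refine ⟨hy.1, ?_⟩
  have h1 : ⌊8 * P.s y⌋ = ⌊8 * P.s z⌋ := hy.2.trans hzE.2.symm
  have h2 := Int.abs_sub_lt_one_of_floor_eq_floor h1
  rw [abs_lt] at h2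
  rw [abs_le]
  constructor <;> linarith [h2.1, h2.2]

end Pool.Agent.H46.TT
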