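/-
W3 : three close points of `X`, two of them density points of one level window.

PROOF.  E q = {x ∈ X | ⌊8 * s x⌋ = q} for q : ℤ.  Since volume X ≠ 0, some volume (E q) ≠ 0 (measure_iUnion_null), and by Dn_ae some
F = E q ∩ Dn (E q) (1/(n+1)) has volume ≠ 0 (E q ⊆ (E q \ ⋃ Dn) ∪ ⋃ n, F n).  Put c₀ = (q + 1/2) / 8: E q ⊆ P.V c₀ (even ≤ 1/16), so
F ⊆ X ∩ Dn (P.V c₀) r₀ with r₀ = 1/(n+1) (Dn is monotone in the set: Icc \ V ⊆ Icc \ E).  Given ε: F = ⋃ k : ℤ, F ∩ Ico (k ε/2) ((k+1) ε/2),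
so one of these pieces has volume ≠ 0, hence is infinite (Set.Finite.measure_zero), hence has three distinct points (e.g. Set.Infinite.exists_subset_card_eq
and sort, or: infinite minus finite is nonempty, three times, and order them by cases); they are within ε/2 of each other.
-/
import Pool.Agent.H46.TT.W1

set_option autoImplicit false

namespace Pool.Agent.H46.TT

open Set MeasureTheory Pool.Agent.H42.EM

private lemma W3_three {S : Set ℝ} (h : S.Infinite) :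
    ∃ x y z : ℝ, x < y ∧ y < z ∧ x ∈ S ∧ y ∈ S ∧ z ∈ S := by
  obtain ⟨t, hts, htc⟩ := h.exists_subset_card_eq 3
  refine ⟨t.orderEmbOfFin htc 0, t.orderEmbOfFin htc 1, t.orderEmbOfFin htc 2, ?_, ?_,
    hts (Finset.orderEmbOfFin_mem t htc 0), hts (Finset.orderEmbOfFin_mem t htc 1),
    hts (Finset.orderEmbOfFin_mem t htc 2)⟩
  · exact (t.orderEmbOfFin htc).strictMono (by decide)
  · exact (t.orderEmbOfFin htc).strictMono (by decide)

theorem exists_U {A : Sys} (P : Coh A) (hpos : volume P.X ≠ 0) :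
    ∃ c₀ r₀ : ℝ, 0 < r₀ ∧ ∀ ε > 0, ∃ x y z : ℝ, x < y ∧ y < z ∧ z < x + ε ∧
      x ∈ P.X ∧ y ∈ P.X ∧ z ∈ P.X ∧ x ∈ Dn (P.V c₀) r₀ ∧ z ∈ Dn (P.V c₀) r₀ := by
  have hmE : ∀ q : ℤ, MeasurableSet {x | x ∈ P.X ∧ ⌊8 * P.s x⌋ = q} := fun q =>
    P.hX.inter ((Int.measurable_floor.comp (P.hs.const_mul 8)) (measurableSet_singleton q))
  obtain ⟨q, hq⟩ : ∃ q : ℤ, volume {x | x ∈ P.X ∧ ⌊8 * P.s x⌋ = q} ≠ 0 := by
    by_contra hcon
    push Not at hcon
    apply hpos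
    refine measure_mono_null ?_ (measure_iUnion_null hcon)
    intro x hx
    exact mem_iUnion.2 ⟨⌊8 * P.s x⌋, hx, rfl⟩
  set E : Set ℝ := {x | x ∈ P.X ∧ ⌊8 * P.s x⌋ = q} with hE
  obtain ⟨n, hn⟩ : ∃ n : ℕ, volume (E ∩ Dn E (1 / (n + 1))) ≠ 0 := by
    by_contra hcon
    push Not at hcon
    apply hq
    refine measure_mono_null ?_ (measure_union_null (Dn_ae (hmE q)) (measure_iUnion_null hcon))
    intro x hx
    by_cases hx' : x ∈ ⋃ n : ℕ, Dn E (1 / (n + 1))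
    · obtain ⟨n, hn⟩ := mem_iUnion.1 hx'
      exact Or.inr (mem_iUnion.2 ⟨n, hx, hn⟩)
    · exact Or.inl ⟨hx, hx'⟩
  have hEV : E ⊆ P.V ((q + 1 / 2) / 8) := by
    rintro x ⟨hx, hf⟩
    refine ⟨hx, ?_⟩
    have h1 := Int.floor_le (8 * P.s x)
    have h2 := Int.lt_floor_add_one (8 * P.s x)
    rw [hf] at h1 h2
    rw [abs_le]
    constructor <;> linarith
  refine ⟨(q + 1 / 2) / 8, 1 / (n + 1), by positivity, ?_⟩
  intro ε hε
  have he : 0 < ε / 2 := by positivity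
  obtain ⟨k, hk⟩ : ∃ k : ℤ, volume (E ∩ Dn E (1 / (n + 1)) ∩
      Ico ((k : ℝ) * (ε / 2)) (((k : ℝ) + 1) * (ε / 2))) ≠ 0 := by
    by_contra hcon
    push Not at hcon
    apply hn
    refine measure_mono_null ?_ (measure_iUnion_null hcon)
    intro x hx
    refine mem_iUnion.2 ⟨⌊x / (ε / 2)⌋, hx, ?_, ?_⟩
    · rw [← le_div_iff₀ he]
      exact Int.floor_le _
    · rw [← div_lt_iff₀ he]
      exact Int.lt_floor_add_one _
  have hinf : (E ∩ Dn E (1 / (n + 1)) ∩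
      Ico ((k : ℝ) * (ε / 2)) (((k : ℝ) + 1) * (ε / 2))).Infinite := by
    intro hfin
    exact hk (hfin.measure_zero volume)
  obtain ⟨x, y, z, hxy, hyz, hx, hy, hz⟩ := W3_three hinf
  refine ⟨x, y, z, hxy, hyz, ?_, hx.1.1.1, hy.1.1.1, hz.1.1.1, Dn_mono hEV hx.1.2,
    Dn_mono hEV hz.1.2⟩
  have h1 := hx.2.1
  have h2 := hz.2.2
  have h3 : ((k : ℝ) + 1) * (ε / 2) = k * (ε / 2) + ε / 2 := by ring
  linarith

end Pool.Agent.H46.TT
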