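/-
CORE : a measurable invariant part of the minimal set with a measurable solution of the cohomological equation has measure zero.
-/
import Pool.Agent.H46.TT.W2
import Pool.Agent.H46.TT.W3
import Pool.Agent.H46.TT.P1
import Pool.Agent.H46.TT.C1
import Pool.Agent.H46.TT.D1
import Pool.Agent.H46.TT.F1
import Pool.Agent.H46.TT.F2
import Pool.Agent.H46.TT.V2

set_option autoImplicit false

namespace Pool.Agent.H46.TT

open Set MeasureTheory Pool.Agent.H42.EM

lemma exp_eighth : Real.exp (1 / 8) ≤ 8 / 7 := by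
  have h := Real.add_one_le_exp (-(1 / 8) : ℝ)
  rw [Real.exp_neg] at h
  have hp := Real.exp_pos (1 / 8)
  have h2 : (7 / 8 : ℝ) * Real.exp (1 / 8) ≤ 1 := by
    have := mul_le_mul_of_nonneg_right h hp.le
    rw [inv_mul_cancel₀ hp.ne'] at this
    linarith
  linarith

theorem core {A : Sys} (P : Coh A) : volume P.X = 0 := by
  by_contra hpos
  obtain ⟨M, hM⟩ := A.exists_lip
  obtain ⟨t₀, ht₀⟩ : ∃ t, t ∉ A.L := by
    by_contra h
    push Not at h
    exact A.nuniv (eq_univ_of_forall h)
  obtain ⟨a₀, b₀, hJ, -⟩ := A.exists_gap ht₀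
  -- the constant θ
  obtain ⟨θ, hθ, hθM, hθe, hθJ⟩ : ∃ θ : ℝ, 0 < θ ∧ 100 * (M * θ) ≤ 1 ∧ Real.exp M * θ ≤ 1 ∧
      θ ≤ b₀ - a₀ := by
    have hM0 := hM.1
    have h1 : 0 < 1 / (100 * (M + 1)) := by positivity
    have h2 : 0 < 1 / Real.exp M := by positivity
    have h3 : 0 < b₀ - a₀ := by linarith [hJ.1]
    refine ⟨min (min (1 / (100 * (M + 1))) (1 / Real.exp M)) (b₀ - a₀), lt_min (lt_min h1 h2) h3,
      ?_, ?_, min_le_right _ _⟩
    · have h4 : min (min (1 / (100 * (M + 1))) (1 / Real.exp M)) (b₀ - a₀) ≤ 1 / (100 * (M + 1)) :=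
        (min_le_left _ _).trans (min_le_left _ _)
      have h5 : M * min (min (1 / (100 * (M + 1))) (1 / Real.exp M)) (b₀ - a₀) ≤
          M * (1 / (100 * (M + 1))) := mul_le_mul_of_nonneg_left h4 hM0
      have h6 : M * (1 / (100 * (M + 1))) ≤ 1 / 100 := by
        rw [mul_one_div, div_le_div_iff₀ (by positivity) (by norm_num)]
        linarith
      linarith
    · have h4 : min (min (1 / (100 * (M + 1))) (1 / Real.exp M)) (b₀ - a₀) ≤ 1 / Real.exp M :=
        (min_le_left _ _).trans (min_le_right _ _)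
      have h5 := mul_le_mul_of_nonneg_left h4 (Real.exp_pos M).le
      rw [mul_one_div_cancel (Real.exp_pos M).ne'] at h5
      exact h5
  obtain ⟨Z, r, C, hZm, hr, hZv, hZ⟩ := exists_Z P (ε := θ / 2) (by linarith)
  obtain ⟨c₀, r₀, hr₀, hU⟩ := exists_U P hpos
  -- the size of U
  obtain ⟨ε, hε, hε1, hεr, hεv⟩ : ∃ ε : ℝ, 0 < ε ∧ ε ≤ 1 ∧ 2 * ε ≤ r₀ ∧
      10 * (ε * Real.exp (-c₀) * Real.exp C) < r := by
    have h1 : 0 < Real.exp (-c₀) * Real.exp C := by positivity
    refine ⟨min (min 1 (r₀ / 2)) (r / (20 * (Real.exp (-c₀) * Real.exp C))), ?_, ?_, ?_, ?_⟩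
    · exact lt_min (lt_min one_pos (by linarith)) (by positivity)
    · exact (min_le_left _ _).trans (min_le_left _ _)
    · have := (min_le_left (min 1 (r₀ / 2)) (r / (20 * (Real.exp (-c₀) * Real.exp C)))).trans
        (min_le_right _ _)
      linarith
    · have h2 := min_le_right (min 1 (r₀ / 2)) (r / (20 * (Real.exp (-c₀) * Real.exp C)))
      have h3 := mul_le_mul_of_nonneg_right h2 h1.le
      have h4 : r / (20 * (Real.exp (-c₀) * Real.exp C)) * (Real.exp (-c₀) * Real.exp C) = r / 20 := by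
        field_simp
      rw [h4] at h3
      have h5 : 10 * (min (min 1 (r₀ / 2)) (r / (20 * (Real.exp (-c₀) * Real.exp C))) *
          Real.exp (-c₀) * Real.exp C) = 10 * (min (min 1 (r₀ / 2)) (r / (20 * (Real.exp (-c₀) *
          Real.exp C))) * (Real.exp (-c₀) * Real.exp C)) := by ring
      rw [h5]
      linarith
  obtain ⟨x, y, z, hxy, hyz, hzx, hxX, hyX, hzX, hxD, hzD⟩ := hU ε hε
  obtain ⟨n, w, a, b, k, hw, hab, hxa, hbz, hwa, hwb, hex⟩ :=
    exists_short A hJ hxy hyz (P.sub hyX) (P.sub hzX)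
  have haz : a < z := hab.1.trans_le hbz
  -- the initial scale
  obtain ⟨D, hD, hDx, hDz, hDe⟩ : ∃ D : ℝ, 0 < D ∧ D ≤ a - x ∧ D ≤ z - a ∧ (D = a - x ∨ D = z - a) := by
    refine ⟨min (a - x) (z - a), lt_min (by linarith) (by linarith), min_le_left _ _,
      min_le_right _ _, ?_⟩
    rcases min_choice (a - x) (z - a) with h | h
    · exact Or.inl h
    · exact Or.inr h
  have hDε : D ≤ ε := by linarith
  have hc : volume (Icc (a - D / 5) (a + D / 5) \ P.W c₀) < ENNReal.ofReal (D / 5 / 5) := by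
    have hVW : ∀ I : Set ℝ, volume (I \ P.W c₀) ≤ volume (I \ P.V c₀) := fun I =>
      measure_mono (sdiff_subset_sdiff_right (P.V_sub c₀))
    have key : volume (Icc (a - D / 5) (a + D / 5) \ P.V c₀) ≤ ENNReal.ofReal (6 * D / 5 / 100) := by
      rcases hDe with h | h
      · refine (measure_mono ?_).trans ((hxD x (a + D / 5) (by linarith) (by linarith)
          ⟨le_refl _, by linarith⟩).trans (ENNReal.ofReal_le_ofReal (by linarith)))
        exact sdiff_subset_sdiff_left (Icc_subset_Icc (by linarith) le_rfl)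
      · refine (measure_mono ?_).trans ((hzD (a - D / 5) z (by linarith) (by linarith)
          ⟨by linarith, le_refl _⟩).trans (ENNReal.ofReal_le_ofReal (by linarith)))
        exact sdiff_subset_sdiff_left (Icc_subset_Icc le_rfl (by linarith))
    refine ((hVW _).trans key).trans_lt ?_
    exact (ENNReal.ofReal_lt_ofReal_iff (by linarith)).2 (by linarith)
  obtain ⟨t, c, htd, htT, hWc, hWt, htc⟩ := exists_scale P.W P.measW (fun c c' y h h' => P.W_near h h')
    (a := a) (d := b - a) (T₀ := D / 5) (c₀ := c₀) (by linarith [hab.1])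
    (fun c' s hs hs' => hab.2.2.2 s ⟨hs.1, by linarith [hs.2]⟩ (P.sub hs'.1)) (by linarith) hc
  have ht : 0 < t := by linarith [hab.1]
  have hn : θ ≤ w n (a + t) - w n (a - t) := by
    have hm := (A.good (hw.mem le_rfl)).mono
    have h1 : w n b ≤ w n (a + t) := hm.monotone (by linarith)
    have h2 : w n (a - t) ≤ w n a := hm.monotone (by linarith)
    linarith
  obtain ⟨m, hmn, hsum, hosc, hlen⟩ := exists_stop hM hw ht (by linarith) hθ hθM hθe hn
  -- the translated maps
  set g : ℕ → Equiv.Perm ℝ := fun i => T ^ (-⌊w i a⌋) * w i with hgdef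
  have hgG : ∀ i ≤ m, g i ∈ A.G := fun i hi =>
    mul_mem (A.Tz_mem _) (hw.mem (by omega))
  have hgv : ∀ i u, g i u = w i u - ⌊w i a⌋ := by
    intro i u
    simp only [hgdef, Equiv.Perm.mul_apply, T_zpow]
    push_cast
    ring
  have hgd : ∀ i u, deriv (⇑(g i)) u = deriv (⇑(w i)) u := by
    intro i u
    have : (⇑(g i) : ℝ → ℝ) = fun v => w i v - ⌊w i a⌋ := funext fun v => hgv i v
    rw [this, deriv_sub_const]
  have hgo : ∀ i ≤ m, Osc (g i) (a - 4 * t) (a + 4 * t) (1 / 8) := by
    intro i hi u hu v hv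
    rw [hgd, hgd]
    exact hosc i hi u hu v hv
  have hgo' : ∀ i ≤ m, Osc (g i) (a - t) (a + t) (1 / 8) := by
    intro i hi u hu v hv
    exact hgo i hi u ⟨by linarith [hu.1], by linarith [hu.2]⟩ v ⟨by linarith [hv.1], by linarith [hv.2]⟩
  -- the set Q and its images
  set Q : Set ℝ := Icc (a - t) (a + t) ∩ P.W c with hQ
  have hQm : MeasurableSet Q := measurableSet_Icc.inter (P.measW c)
  have hAm : ∀ i ≤ m, MeasurableSet (⇑(g i) '' Q) := by
    intro i hi
    have hh := (A.good (inv_mem (hgG i hi))).cont.measurable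
    have he : ⇑(g i) '' Q = ⇑(g i)⁻¹ ⁻¹' Q := by
      ext u
      constructor
      · rintro ⟨v, hv, rfl⟩
        have hv' : (g i)⁻¹ (g i v) = v := by simp
        rw [mem_preimage, hv']
        exact hv
      · intro hu
        exact ⟨(g i)⁻¹ u, hu, by simp⟩
    rw [he]
    exact hh hQm
  have hdisj : ∀ i j, i < j → j ≤ m → Disjoint (⇑(g i) '' Q) (⇑(g j) '' Q) := by
    intro i j hij hj
    rw [Set.disjoint_left]
    rintro _ ⟨u, hu, rfl⟩ ⟨v, hv, hvu⟩
    obtain ⟨q, hq, hqe⟩ := disj P (hgG i (by omega)) (hgG j hj) ht (hgo i (by omega)) (hgo j hj)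
      hu.1 hv.1 hu.2.1 hv.2.1 (by
        have h1 := abs_le.1 hu.2.2
        have h2 := abs_le.1 hv.2.2
        rw [abs_le]
        constructor <;> linarith [h1.1, h1.2, h2.1, h2.2]) hvu.symm
    rw [hgv, hgv] at hqe
    refine hex i j hij (by omega) (⌊w i a⌋ - ⌊w j a⌋) q (by linarith [hq.1]) (by linarith [hq.2]) ?_
    push_cast
    linarith
  have hsub : ∀ i ≤ m, ⇑(g i) '' Q ⊆ (P.X ∩ Icc (-1) 2) \ Z := by
    rintro i hi _ ⟨u, hu, rfl⟩
    have hmono := (A.good (hgG i hi)).mono
    have hu1 : g i (a - t) ≤ g i u := hmono.monotone hu.1.1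
    have hu2 : g i u ≤ g i (a + t) := hmono.monotone hu.1.2
    have ha1 : g i (a - t) < g i a := hmono (by linarith)
    have ha2 : g i a < g i (a + t) := hmono (by linarith)
    have hl : g i (a + t) - g i (a - t) ≤ 1 := by
      rw [hgv, hgv]
      linarith [hlen i hi]
    have hf1 : 0 ≤ g i a := by
      rw [hgv]
      linarith [Int.floor_le (w i a)]
    have hf2 : g i a < 1 := by
      rw [hgv]
      linarith [Int.lt_floor_add_one (w i a)]
    refine ⟨⟨(P.inv _ (hgG i hi) u).2 hu.2.1, by linarith, by linarith⟩, fun hz => ?_⟩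
    obtain ⟨hsC, hzD'⟩ := hZ _ hz
    -- the length of the image is small
    have hlen' : g i (a + t) - g i (a - t) < r := by
      have h1 := osc_deriv_le (A.good (hgG i hi)) (hgo' i hi) (x := u) (u := a - t) (v := a + t) hu.1
        ⟨le_rfl, by linarith⟩ ⟨by linarith, le_rfl⟩ (by linarith)
      have h2 : P.s (g i u) = P.s u + Real.log (deriv (⇑(g i)) u) := P.coh _ (hgG i hi) u hu.2.1
      have h3 := (abs_le.1 hu.2.2).1
      have h4 : Real.log (deriv (⇑(g i)) u) ≤ C - c + 1 / 4 := by linarith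
      have h5 : deriv (⇑(g i)) u ≤ Real.exp (C - c + 1 / 4) := by
        have := Real.exp_le_exp.2 h4
        rwa [Real.exp_log ((A.good (hgG i hi)).pos u)] at this
      have h6 : Real.exp (C - c + 1 / 4) = Real.exp C * Real.exp (-c) * (Real.exp (1 / 8) * Real.exp (1 / 8)) := by
        rw [← Real.exp_add, ← Real.exp_add, ← Real.exp_add]
        congr 1
        ring
      have h7 := exp_eighth
      have h8 : 0 < Real.exp (1 / 8) := Real.exp_pos _
      have h9 : Real.exp (1 / 8) * Real.exp (1 / 8) * Real.exp (1 / 8) ≤ 8 / 7 * (8 / 7) * (8 / 7) := by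
        gcongr
      have h10 : g i (a + t) - g i (a - t) ≤
          (8 / 7 * (8 / 7) * (8 / 7)) * 2 * (Real.exp C * (t * Real.exp (-c))) := by
        calc g i (a + t) - g i (a - t) ≤ Real.exp (1 / 8) * deriv (⇑(g i)) u * (a + t - (a - t)) := h1
          _ = Real.exp (1 / 8) * deriv (⇑(g i)) u * (2 * t) := by ring
          _ ≤ Real.exp (1 / 8) * (Real.exp C * Real.exp (-c) * (Real.exp (1 / 8) * Real.exp (1 / 8))) *
              (2 * t) := by
            rw [← h6]
            gcongr
          _ = (Real.exp (1 / 8) * Real.exp (1 / 8) * Real.exp (1 / 8)) * 2 *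
              (Real.exp C * (t * Real.exp (-c))) := by ring
          _ ≤ _ := by gcongr
      have h11 : Real.exp C * (t * Real.exp (-c)) ≤ Real.exp C * (2 * (D / 5 * Real.exp (-c₀))) := by
        gcongr
      have h12 : Real.exp C * (2 * (D / 5 * Real.exp (-c₀))) ≤
          Real.exp C * (2 * (ε / 5 * Real.exp (-c₀))) := by gcongr
      have h13 : Real.exp C * (2 * (ε / 5 * Real.exp (-c₀))) = 2 / 5 * (ε * Real.exp (-c₀) * Real.exp C) := by
        ring
      have h14 : 0 < ε * Real.exp (-c₀) * Real.exp C := by positivity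
      linarith
    have h1 := hzD' (g i (a - t)) (g i (a + t)) (by linarith) hlen' ⟨hu1, hu2⟩
    have h2 := viol P (hgG i hi) ht (hgo' i hi) hu.1 hu.2.1 (hWc _)
    exact absurd (h2.trans_le h1) (lt_irrefl _)
  -- counting
  have hpd : (↑(Finset.range (m + 1)) : Set ℕ).PairwiseDisjoint fun i => ⇑(g i) '' Q := by
    intro i hi j hj hij
    have hi' : i < m + 1 := by simpa using hi
    have hj' : j < m + 1 := by simpa using hj
    rcases lt_or_gt_of_ne hij with h | h
    · exact hdisj i j h (by omega)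
    · exact (hdisj j i h (by omega)).symm
  have hU1 : ∑ i ∈ Finset.range (m + 1), volume (⇑(g i) '' Q) ≤ volume ((P.X ∩ Icc (-1) 2) \ Z) := by
    rw [← measure_biUnion_finset hpd (fun i hi => hAm i (by have := Finset.mem_range.1 hi; omega))]
    refine measure_mono (iUnion₂_subset fun i hi => hsub i ?_)
    have := Finset.mem_range.1 hi
    omega
  have hU2 : ENNReal.ofReal (θ / 2) ≤ ∑ i ∈ Finset.range (m + 1), volume (⇑(g i) '' Q) := by
    calc ENNReal.ofReal (θ / 2)
        ≤ ENNReal.ofReal (∑ i ∈ Finset.range (m + 1), (g i (a + t) - g i (a - t)) / 2) := by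
          refine ENNReal.ofReal_le_ofReal ?_
          rw [← Finset.sum_div]
          have : ∑ i ∈ Finset.range (m + 1), (g i (a + t) - g i (a - t)) =
              ∑ i ∈ Finset.range (m + 1), (w i (a + t) - w i (a - t)) :=
            Finset.sum_congr rfl fun i _ => by rw [hgv, hgv]; ring
          rw [this]
          linarith
      _ = ∑ i ∈ Finset.range (m + 1), ENNReal.ofReal ((g i (a + t) - g i (a - t)) / 2) := by
          rw [ENNReal.ofReal_sum_of_nonneg]
          intro i hi
          have hmono := (A.good (hgG i (by have := Finset.mem_range.1 hi; omega))).mono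
          have : g i (a - t) < g i (a + t) := hmono (by linarith)
          linarith
      _ ≤ _ := by
          refine Finset.sum_le_sum fun i hi => ?_
          have hi' : i ≤ m := by have := Finset.mem_range.1 hi; omega
          exact vol_half (A.good (hgG i hi')) ht (hgo' i hi') (P.measW c) hWt
  exact absurd ((hU2.trans hU1).trans_lt hZv) (lt_irrefl _)

end Pool.Agent.H46.TT
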