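/-
R1 : bounded returns force measure zero.

PROOF.  G = A.G is countable (countG A in Defs).  X = {x | ∃ g ∈ G, g x ∈ B} = ⋃ g ∈ G, (⇑g) ⁻¹' B: measurable (countable union, g continuous), contained in L
(B ⊆ L, Sys.mem_iff), invariant (x ↦ k x: replace g by g k⁻¹ resp. g k).  Define ρ : ℝ → ENNReal, ρ x = ⨆ g ∈ G, indicator ((⇑g) ⁻¹' B) (fun x => ENNReal.ofReal (deriv g x)) x:
measurable (Measurable.biSup countG; indicator of measurable functions, Good.contDeriv).  s x = - Real.log (ρ x).toReal is measurable.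
For x ∈ X: fix h ∈ G with h x ∈ B.  If g ∈ G and g x ∈ B then g x = (g * h⁻¹) (h x), so (g h⁻¹)'(h x) ≤ N by hypothesis and g' x = (g h⁻¹)'(h x) * h' x ≤ N h' x
(Good.deriv_mul applied to g = (g h⁻¹) * h).  So ofReal (h' x) ≤ ρ x ≤ ofReal (N h' x): 0 < ρ x < ∞.
Equivariance: for k ∈ G, x ∈ X: {g ∈ G | g (k x) ∈ B} ↔ {g k | ...}: (g k)'(x) = g'(k x) k' x, so ρ x = ρ (k x) * ofReal (k' x) (le_antisymm on iSup, ENNReal.iSup_mul / or bound terms),
hence s (k x) = s x + log k' x (Real.log_mul, ENNReal.toReal_mul, positivity).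
So P : Coh A; core P gives volume X = 0, and B ⊆ X (g = 1).
-/
import Pool.Agent.H46.TT.Core

set_option autoImplicit false

namespace Pool.Agent.H46.TT

open Set MeasureTheory Pool.Agent.H42.EM

open Classical in
/-- the terms of the supremum -/
noncomputable def R1_f (B : Set ℝ) (g : Equiv.Perm ℝ) (x : ℝ) : ENNReal :=
  (⇑g ⁻¹' B).indicator (fun x => ENNReal.ofReal (deriv (⇑g) x)) x

noncomputable def R1_rho (A : Sys) (B : Set ℝ) (x : ℝ) : ENNReal := ⨆ g : A.G, R1_f B g.1 x

lemma R1_f_of_mem {B : Set ℝ} {g : Equiv.Perm ℝ} {x : ℝ} (h : g x ∈ B) :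
    R1_f B g x = ENNReal.ofReal (deriv (⇑g) x) := by
  unfold R1_f
  exact Set.indicator_of_mem (show x ∈ ⇑g ⁻¹' B from h) _

lemma R1_f_of_notMem {B : Set ℝ} {g : Equiv.Perm ℝ} {x : ℝ} (h : g x ∉ B) : R1_f B g x = 0 := by
  unfold R1_f
  exact Set.indicator_of_notMem (show x ∉ ⇑g ⁻¹' B from h) _

lemma R1_f_mul {B : Set ℝ} {g k : Equiv.Perm ℝ} (hg : Good g) (hk : Good k) (x : ℝ) :
    R1_f B (g * k) x = R1_f B g (k x) * ENNReal.ofReal (deriv (⇑k) x) := by
  by_cases h : g (k x) ∈ B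
  · have h' : (g * k) x ∈ B := h
    rw [R1_f_of_mem h', R1_f_of_mem h, hg.deriv_mul hk, ENNReal.ofReal_mul (hg.pos _).le]
  · have h' : (g * k) x ∉ B := h
    rw [R1_f_of_notMem h', R1_f_of_notMem h, zero_mul]

lemma R1_rho_equi (A : Sys) (B : Set ℝ) {k : Equiv.Perm ℝ} (hk : k ∈ A.G) (x : ℝ) :
    R1_rho A B x = R1_rho A B (k x) * ENNReal.ofReal (deriv (⇑k) x) := by
  unfold R1_rho
  rw [ENNReal.iSup_mul]
  rw [← (Equiv.mulRight (⟨k, hk⟩ : A.G)).iSup_comp (g := fun g : A.G => R1_f B g.1 x)]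
  refine iSup_congr fun g => ?_
  exact R1_f_mul (A.good g.2) (A.good hk) x

theorem bdd_null (A : Sys) {B : Set ℝ} (hB : MeasurableSet B) (hsub : B ⊆ A.L) (N : ℝ)
    (h : ∀ x ∈ B, ∀ g ∈ A.G, g x ∈ B → deriv (⇑g) x ≤ N) : volume B = 0 := by
  haveI : Countable A.G := (countG A).to_subtype
  have hmf : ∀ g ∈ A.G, Measurable (R1_f B g) := by
    intro g hg
    unfold R1_f
    exact (ENNReal.measurable_ofReal.comp (A.good hg).contDeriv.measurable).indicator
      (hB.preimage (A.good hg).cont.measurable)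
  have hmr : Measurable (R1_rho A B) := by
    unfold R1_rho
    exact Measurable.iSup fun g => hmf g.1 g.2
  set X : Set ℝ := {x | ∃ g ∈ A.G, g x ∈ B} with hXdef
  have hXeq : X = ⋃ g ∈ (A.G : Set (Equiv.Perm ℝ)), ⇑g ⁻¹' B := by
    ext x
    simp [hXdef]
  have hinv : ∀ g ∈ A.G, ∀ x, g x ∈ X ↔ x ∈ X := by
    intro g hg x
    constructor
    · rintro ⟨k, hk, hkx⟩
      exact ⟨k * g, mul_mem hk hg, hkx⟩
    · rintro ⟨k, hk, hkx⟩
      refine ⟨k * g⁻¹, mul_mem hk (inv_mem hg), ?_⟩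
      have : (k * g⁻¹) (g x) = k x := by simp
      rw [this]
      exact hkx
  have hfin : ∀ x ∈ X, R1_rho A B x ≠ ⊤ ∧ 0 < R1_rho A B x := by
    rintro x ⟨k, hk, hkx⟩
    constructor
    · have hle : R1_rho A B x ≤ ENNReal.ofReal (N * deriv (⇑k) x) := by
        unfold R1_rho
        refine iSup_le fun g => ?_
        by_cases hg : g.1 x ∈ B
        · rw [R1_f_of_mem hg]
          apply ENNReal.ofReal_le_ofReal
          have e1 : (g.1 * k⁻¹) (k x) = g.1 x := by simp
          have e2 := h (k x) hkx (g.1 * k⁻¹) (mul_mem g.2 (inv_mem hk)) (by rw [e1]; exact hg)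
          have e3 : g.1 = (g.1 * k⁻¹) * k := by group
          have e4 : deriv (⇑g.1) x = deriv (⇑(g.1 * k⁻¹)) (k x) * deriv (⇑k) x := by
            conv_lhs => rw [e3]
            exact (A.good (mul_mem g.2 (inv_mem hk))).deriv_mul (A.good hk) x
          rw [e4]
          exact mul_le_mul_of_nonneg_right e2 ((A.good hk).pos x).le
        · rw [R1_f_of_notMem hg]
          exact zero_le
      exact ne_top_of_le_ne_top ENNReal.ofReal_ne_top hle
    · have hge : ENNReal.ofReal (deriv (⇑k) x) ≤ R1_rho A B x := by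
        unfold R1_rho
        rw [← R1_f_of_mem hkx]
        exact le_iSup (fun g : A.G => R1_f B g.1 x) ⟨k, hk⟩
      exact lt_of_lt_of_le (ENNReal.ofReal_pos.2 ((A.good hk).pos x)) hge
  let P : Coh A :=
    { X := X
      s := fun x => -Real.log (R1_rho A B x).toReal
      hX := by
        rw [hXeq]
        exact MeasurableSet.biUnion (countG A) fun g hg => hB.preimage (A.good hg).cont.measurable
      hs := (Real.measurable_log.comp hmr.ennreal_toReal).neg
      sub := by
        rintro x ⟨g, hg, hgx⟩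
        exact (A.mem_iff hg x).1 (hsub hgx)
      inv := hinv
      coh := by
        intro k hk x hx
        have hkx : k x ∈ X := (hinv k hk x).2 hx
        have h1 := hfin (k x) hkx
        have h2 : (R1_rho A B (k x)).toReal ≠ 0 :=
          (ENNReal.toReal_pos h1.2.ne' h1.1).ne'
        have h3 : (R1_rho A B x).toReal = (R1_rho A B (k x)).toReal * deriv (⇑k) x := by
          rw [R1_rho_equi A B hk x, ENNReal.toReal_mul, ENNReal.toReal_ofReal ((A.good hk).pos x).le]
        rw [h3, Real.log_mul h2 ((A.good hk).pos x).ne']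
        ring }
  have h0 : volume X = 0 := core P
  refine measure_mono_null ?_ h0
  intro x hx
  exact ⟨1, one_mem _, by simpa using hx⟩

end Pool.Agent.H46.TT
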