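/-
R2 : returns with unbounded derivative (type III).

PROOFS.
* unbdd: for N : ℕ let B N = {x ∈ B | ∀ g ∈ G, g x ∈ B → deriv g x ≤ N} = B ∩ ⋂ g ∈ G, ((⇑g) ⁻¹' Bᶜ ∪ {x | deriv g x ≤ N}): measurable (G countable).  For x ∈ B N, g x ∈ B N: deriv g x ≤ N,
  so volume (B N) = 0 by bdd_null.  Hence a.e. x ∈ B lies in no B N (ae_all_iff, ae_restrict_iff' hB, measure_iUnion_null): for every N there is g ∈ G with g x ∈ B, N < g' x;
  given C take N ≥ C.
-/
import Pool.Agent.H46.TT.R1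

set_option autoImplicit false

namespace Pool.Agent.H46.TT

open Set MeasureTheory Pool.Agent.H42.EM

theorem unbdd (A : Sys) {B : Set ℝ} (hB : MeasurableSet B) (hsub : B ⊆ A.L) :
    ∀ᵐ x ∂(volume.restrict B), ∀ C : ℝ, ∃ g ∈ A.G, g x ∈ B ∧ C < deriv (⇑g) x := by
  set BN : ℕ → Set ℝ := fun N => B ∩ ⋂ g ∈ (A.G : Set (Equiv.Perm ℝ)),
    ((⇑g) ⁻¹' Bᶜ ∪ {x | deriv (⇑g) x ≤ (N : ℝ)}) with hBN
  have hmem : ∀ N x, x ∈ BN N ↔ x ∈ B ∧ ∀ g ∈ A.G, g x ∈ B → deriv (⇑g) x ≤ (N : ℝ) := by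
    intro N x
    simp only [hBN, mem_inter_iff, mem_iInter, mem_union, mem_preimage, mem_compl_iff, mem_ofPred_eq,
      SetLike.mem_coe]
    refine and_congr_right fun _ => forall_congr' fun g => forall_congr' fun _ => ?_
    tauto
  have hmeas : ∀ N, MeasurableSet (BN N) := by
    intro N
    refine hB.inter (MeasurableSet.biInter (countG A) fun g hg => ?_)
    have hgood := A.good hg
    exact (hgood.cont.measurable hB.compl).union
      (measurableSet_le hgood.contDeriv.measurable measurable_const)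
  have hnull : ∀ N, volume (BN N) = 0 := by
    intro N
    refine bdd_null A (hmeas N) (fun x hx => hsub hx.1) N fun x hx g hg hgx => ?_
    exact ((hmem N x).1 hx).2 g hg ((hmem N (g x)).1 hgx).1
  rw [ae_restrict_iff' hB]
  have h0 : volume (⋃ N, BN N) = 0 := measure_iUnion_null hnull
  have h1 : ∀ᵐ x ∂volume, x ∉ ⋃ N, BN N := measure_eq_zero_iff_ae_notMem.1 h0
  filter_upwards [h1] with x hx hxB C
  by_contra hcon
  push Not at hcon
  obtain ⟨N, hN⟩ := exists_nat_ge C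
  refine hx (mem_iUnion.2 ⟨N, (hmem N x).2 ⟨hxB, fun g hg hgx => ?_⟩⟩)
  exact (hcon g hg hgx).trans hN

end Pool.Agent.H46.TT
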