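/-
R3 : the minimal set is not charged by absolutely continuous invariant measures.

PROOF.  Let ρ = ν.rnDeriv volume: measurable, ν = volume.withDensity ρ (Measure.withDensity_rnDeriv_eq, ν σ-finite, hac).
  (a) for g ∈ G: ρ x = ρ (g x) * ofReal (g' x) for volume-a.e. x.  For every measurable E: ∫⁻ x in E, ρ x = ν E = ν (g '' E) (hypothesis for g⁻¹: ν.map g⁻¹ = ν and the preimage of E under g⁻¹
      is g '' E; Measure.map_apply) = ∫⁻ y in g '' E, ρ y = ∫⁻ x in E, ofReal |g' x| * ρ (g x) (lintegral_image_eq_lintegral_abs_deriv_mul).  So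
      ae_eq_of_forall_setLIntegral_eq_of_sigmaFinite (both functions measurable) gives (a); volume is σ-finite.
  (b) for a.e. x, (a) holds for all g ∈ G (countG A: ae_ball_iff).  Let N₀ be the exceptional null set enlarged to a measurable null set (toMeasurable).
      For k : ℕ let B k = {x ∈ L | ofReal (1/(k+1)) ≤ ρ x ∧ ρ x ≤ ofReal (k + 1)} \ N₀.  For x, g x ∈ B k: ofReal (1/(k+1)) * ofReal (g' x) ≤ ρ (g x) * ofReal (g' x) = ρ x ≤ ofReal (k+1), so
      g' x ≤ (k+1)^2, so volume (B k) = 0 (bdd_null), so ν (B k) = 0 (hac).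
  (c) L ⊆ {ρ = 0} ∪ {ρ = ∞} ∪ N₀ ∪ ⋃ k, B k; ν {ρ = 0} = 0 (withDensity: the integral of ρ over {ρ = 0}; withDensity_apply, setLIntegral_congr_fun / lintegral_zero),
      volume {ρ = ∞} = 0 (Measure.rnDeriv_lt_top), so ν L = 0.
-/
import Pool.Agent.H46.TT.R1

set_option autoImplicit false

namespace Pool.Agent.H46.TT

open Set MeasureTheory Pool.Agent.H42.EM

lemma R3_cov {g : Equiv.Perm ℝ} (hg : Good g) (ν : Measure ℝ) [SigmaFinite ν]
    (hac : ν ≪ volume) (hinv : ν.map (⇑g⁻¹) = ν) :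
    ∀ᵐ x, ν.rnDeriv volume x = ν.rnDeriv volume (g x) * ENNReal.ofReal (deriv (⇑g) x) := by
  have hm : Measurable (ν.rnDeriv volume) := Measure.measurable_rnDeriv ν volume
  have hwd : volume.withDensity (ν.rnDeriv volume) = ν := Measure.withDensity_rnDeriv_eq ν volume hac
  have hmg : Measurable (⇑g) := hg.cont.measurable
  have key : ∀ E : Set ℝ, MeasurableSet E → ∫⁻ x in E, ν.rnDeriv volume x = ν E := by
    intro E hE
    rw [← withDensity_apply _ hE, hwd]
  have hginv : Measurable (⇑g⁻¹) := by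
    have h1 : MeasurableEmbedding (⇑g) := hg.cont.measurableEmbedding g.injective
    have h2 : ∀ E : Set ℝ, ⇑g⁻¹ ⁻¹' E = ⇑g '' E := fun E => (Equiv.image_eq_preimage_symm g E).symm
    intro E hE
    rw [h2]
    exact h1.measurableSet_image.2 hE
  refine ae_eq_of_forall_setLIntegral_eq_of_sigmaFinite hm
    ((hm.comp hmg).mul (ENNReal.measurable_ofReal.comp hg.contDeriv.measurable)) ?_
  intro E hE _
  have himg : ⇑g⁻¹ ⁻¹' E = ⇑g '' E := (Equiv.image_eq_preimage_symm g E).symm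
  have e1 : ν E = ν (⇑g '' E) := by
    conv_lhs => rw [← hinv]
    rw [Measure.map_apply hginv hE, himg]
  have hmE : MeasurableSet (⇑g '' E) := by
    rw [← himg]
    exact hginv hE
  rw [key E hE, e1, ← key _ hmE,
    lintegral_image_eq_lintegral_abs_deriv_mul hE
      (fun x _ => ((hg.diff x).hasDerivAt).hasDerivWithinAt) g.injective.injOn]
  refine setLIntegral_congr_fun hE (fun x _ => ?_)
  rw [abs_of_pos (hg.pos x), mul_comm]

theorem no_inv (A : Sys) (ν : Measure ℝ) [SigmaFinite ν] (hac : ν ≪ volume)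
    (hinv : ∀ g ∈ A.G, ν.map (⇑g) = ν) : ν A.L = 0 := by
  set ρ : ℝ → ENNReal := ν.rnDeriv volume with hρ
  have hm : Measurable ρ := Measure.measurable_rnDeriv ν volume
  have hwd : volume.withDensity ρ = ν := Measure.withDensity_rnDeriv_eq ν volume hac
  have hae : ∀ᵐ x, ∀ g ∈ (A.G : Set (Equiv.Perm ℝ)),
      ρ x = ρ (g x) * ENNReal.ofReal (deriv (⇑g) x) := by
    rw [ae_ball_iff (countG A)]
    intro g hg
    exact R3_cov (A.good hg) ν hac (hinv g⁻¹ (inv_mem hg))
  set N₀ : Set ℝ := toMeasurable volume {x | ¬ ∀ g ∈ (A.G : Set (Equiv.Perm ℝ)),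
      ρ x = ρ (g x) * ENNReal.ofReal (deriv (⇑g) x)} with hN₀
  have hN0 : volume N₀ = 0 := by
    rw [hN₀, measure_toMeasurable]
    exact hae
  have hN0m : MeasurableSet N₀ := measurableSet_toMeasurable _ _
  have hN0s : ∀ x, x ∉ N₀ → ∀ g ∈ A.G, ρ x = ρ (g x) * ENNReal.ofReal (deriv (⇑g) x) := by
    intro x hx
    by_contra hcon
    exact hx (subset_toMeasurable _ _ hcon)
  set B : ℕ → Set ℝ := fun k => (A.L ∩ {x | ENNReal.ofReal (1 / ((k : ℝ) + 1)) ≤ ρ x ∧
    ρ x ≤ ENNReal.ofReal ((k : ℝ) + 1)}) \ N₀ with hB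
  have hBm : ∀ k, MeasurableSet (B k) := by
    intro k
    refine (A.closed.measurableSet.inter ?_).diff hN0m
    exact (measurableSet_le measurable_const hm).inter (measurableSet_le hm measurable_const)
  have hBv : ∀ k, volume (B k) = 0 := by
    intro k
    refine bdd_null A (hBm k) (fun x hx => hx.1.1) (((k : ℝ) + 1) ^ 2) ?_
    intro x hx g hg hgx
    have hk : (0 : ℝ) < (k : ℝ) + 1 := by positivity
    have h1 := hN0s x hx.2 g hg
    have h2 : ENNReal.ofReal (1 / ((k : ℝ) + 1) * deriv (⇑g) x) ≤ ENNReal.ofReal ((k : ℝ) + 1) := by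
      rw [ENNReal.ofReal_mul (by positivity)]
      calc ENNReal.ofReal (1 / ((k : ℝ) + 1)) * ENNReal.ofReal (deriv (⇑g) x)
          ≤ ρ (g x) * ENNReal.ofReal (deriv (⇑g) x) := by gcongr; exact hgx.1.2.1
        _ = ρ x := h1.symm
        _ ≤ _ := hx.1.2.2
    have h3 := (ENNReal.ofReal_le_ofReal_iff hk.le).1 h2
    rw [one_div, inv_mul_le_iff₀ hk] at h3
    nlinarith [h3]
  have h0 : ν {x | ρ x = 0} = 0 := by
    have hms : MeasurableSet {x | ρ x = 0} := hm (measurableSet_singleton 0)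
    rw [← hwd, withDensity_apply _ hms]
    have : ∫⁻ x in {x | ρ x = 0}, ρ x = ∫⁻ x in {x | ρ x = 0}, (0 : ENNReal) :=
      setLIntegral_congr_fun hms (fun x hx => hx)
    rw [this, lintegral_zero]
  have htop : ν {x | ρ x = ⊤} = 0 := by
    refine hac ?_
    have h1 : ∀ᵐ x, ρ x < ⊤ := Measure.rnDeriv_lt_top ν volume
    rw [ae_iff] at h1
    refine measure_mono_null ?_ h1
    intro x hx
    have hx' : ρ x = ⊤ := hx
    simp [hx']
  have hsub : A.L ⊆ ({x | ρ x = 0} ∪ {x | ρ x = ⊤}) ∪ (N₀ ∪ ⋃ k, B k) := by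
    intro x hx
    by_cases h1 : ρ x = 0
    · exact Or.inl (Or.inl h1)
    by_cases h2 : ρ x = ⊤
    · exact Or.inl (Or.inr h2)
    by_cases h3 : x ∈ N₀
    · exact Or.inr (Or.inl h3)
    refine Or.inr (Or.inr ?_)
    have hr : 0 < (ρ x).toReal := ENNReal.toReal_pos h1 h2
    obtain ⟨k, hk⟩ := exists_nat_ge (max (ρ x).toReal (1 / (ρ x).toReal))
    have hk1 := (le_max_left _ _).trans hk
    have hk2 := (le_max_right _ _).trans hk
    have hk0 : (0 : ℝ) < (k : ℝ) + 1 := by positivity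
    refine mem_iUnion.2 ⟨k, ⟨⟨hx, ?_, ?_⟩, h3⟩⟩
    · rw [← ENNReal.ofReal_toReal h2]
      refine ENNReal.ofReal_le_ofReal ?_
      rw [div_le_iff₀ hr] at hk2
      rw [div_le_iff₀ hk0]
      nlinarith
    · rw [← ENNReal.ofReal_toReal h2]
      exact ENNReal.ofReal_le_ofReal (by linarith)
  refine measure_mono_null hsub ?_
  refine measure_union_null (measure_union_null h0 htop) (measure_union_null (hac hN0) ?_)
  exact measure_iUnion_null fun k => hac (hBv k)

end Pool.Agent.H46.TT
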