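/-
W1a : the density sets `Dn` are closed.

PROOF.
* Dn_closed: let z ∉ Dn E r: there are a < b, b - a < r, z ∈ [a, b], volume ([a,b] \ E) > (b - a) / 100.  For small e > 0
  the interval [a - e, b + e] still has length b - a + 2 e < r, and volume ([a-e,b+e] \ E) ≥ volume ([a,b] \ E) > (b - a + 2 e) / 100
  (work with (volume _).toReal or choose e with ofReal ((b - a + 2 e)/100) < volume ([a,b] \ E): the volume is finite).
  Every z' ∈ (a - e, b + e), a neighbourhood of z, is outside Dn E r.
-/
import Pool.Agent.H46.TT.Defs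

set_option autoImplicit false

namespace Pool.Agent.H46.TT

open Set MeasureTheory Pool.Agent.H42.EM

lemma Dn_closed (E : Set ℝ) (r : ℝ) : IsClosed (Dn E r) := by
  rw [← isOpen_compl_iff, isOpen_iff_mem_nhds]
  intro z hz
  have hz' : ¬ ∀ a b : ℝ, a < b → b - a < r → z ∈ Icc a b →
    volume (Icc a b \ E) ≤ ENNReal.ofReal ((b - a) / 100) := hz
  push Not at hz'
  obtain ⟨a, b, hab, hr, hzab, hv⟩ := hz'
  have hfin : volume (Icc a b \ E) ≠ ⊤ := by
    refine ne_top_of_le_ne_top ?_ (measure_mono sdiff_subset)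
    rw [Real.volume_Icc]
    exact ENNReal.ofReal_ne_top
  obtain ⟨w, hw⟩ : ∃ w, w = (volume (Icc a b \ E)).toReal := ⟨_, rfl⟩
  have hw1 : (b - a) / 100 < w := by
    rw [hw]
    have h := (ENNReal.toReal_lt_toReal ENNReal.ofReal_ne_top hfin).2 hv
    rwa [ENNReal.toReal_ofReal (by linarith)] at h
  obtain ⟨e, he⟩ : ∃ e, e = min ((r - (b - a)) / 4) ((w - (b - a) / 100) * 25) := ⟨_, rfl⟩
  have he0 : 0 < e := by
    rw [he]
    exact lt_min (by linarith) (by linarith)
  have he1 : e ≤ (r - (b - a)) / 4 := by rw [he]; exact min_le_left _ _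
  have he2 : e ≤ (w - (b - a) / 100) * 25 := by rw [he]; exact min_le_right _ _
  refine Filter.mem_of_superset (Ioo_mem_nhds (a := a - e) (b := b + e) (by linarith [hzab.1])
    (by linarith [hzab.2])) ?_
  intro z' hz'' hc
  have h1 := hc (a - e) (b + e) (by linarith) (by linarith) ⟨hz''.1.le, hz''.2.le⟩
  have h2 : volume (Icc a b \ E) ≤ volume (Icc (a - e) (b + e) \ E) :=
    measure_mono (sdiff_subset_sdiff_left (Icc_subset_Icc (by linarith) (by linarith)))
  have h3 : ENNReal.ofReal ((b + e - (a - e)) / 100) < volume (Icc a b \ E) := by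
    rw [← ENNReal.ofReal_toReal hfin, ← hw]
    exact (ENNReal.ofReal_lt_ofReal_iff (by linarith)).2 (by linarith)
  exact absurd (h2.trans h1) (not_le.2 h3)

end Pool.Agent.H46.TT
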